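import Pool.Agent.Lib.MP_331cea_nt.Near

set_option autoImplicit false

/-!
`k = 3, 5, 7`: two members `2 ^ a * u + i` and `2 ^ b * u + i'` (or with `3` in place of `2`) with the
same cofactor `u` are exponentially far apart.
-/

namespace Pool.Agent.Lib.MP_331cea_nt

open Finset

theorem int3 {m t : ℕ} (ht : 1 ≤ t) {ε : ℤ} (hε : ε = 1 ∨ ε = -1)
    (h : (3 : ℤ) ^ m ∣ 2 ^ t - ε) : 3 ^ m ≤ 3 * t := by
  rcases hε with rfl | rfl
  · refine c3 (y := 2 ^ t - 1) ht (Or.inr (by have := Nat.one_le_two_pow (n := t); omega)) ?_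
    have h1 : (((3 ^ m : ℕ) : ℤ)) ∣ ((2 ^ t - 1 : ℕ) : ℤ) := by
      rw [Nat.cast_sub Nat.one_le_two_pow]
      push_cast
      exact h
    exact_mod_cast h1
  · refine c3 (y := 2 ^ t + 1) ht (Or.inl rfl) ?_
    have h1 : (((3 ^ m : ℕ) : ℤ)) ∣ ((2 ^ t + 1 : ℕ) : ℤ) := by
      push_cast
      simpa using h
    exact_mod_cast h1

theorem int2 {m t : ℕ} (ht : 1 ≤ t) {ε : ℤ} (hε : ε = 1 ∨ ε = -1)
    (h : (2 : ℤ) ^ m ∣ 3 ^ t - ε) : 2 ^ m ≤ 8 * t := by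
  rcases hε with rfl | rfl
  · refine c2 (y := 3 ^ t - 1) ht
      (Or.inr (by have := Nat.one_le_pow t 3 (by norm_num); omega)) ?_
    have h1 : (((2 ^ m : ℕ) : ℤ)) ∣ ((3 ^ t - 1 : ℕ) : ℤ) := by
      rw [Nat.cast_sub (Nat.one_le_pow _ _ (by norm_num))]
      push_cast
      exact h
    exact_mod_cast h1
  · refine c2 (y := 3 ^ t + 1) ht (Or.inl rfl) ?_
    have h1 : (((2 ^ m : ℕ) : ℤ)) ∣ ((3 ^ t + 1 : ℕ) : ℤ) := by
      push_cast
      simpa using h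
    exact_mod_cast h1

theorem pm_two {d : ℤ} (h1 : -4 ≤ d) (h2 : d ≤ 4) (h3 : ¬ (3 : ℤ) ∣ d) :
    ∃ s : ℕ, s ≤ 2 ∧ ∃ σ : ℤ, (σ = 1 ∨ σ = -1) ∧ d = σ * 2 ^ s := by
  interval_cases d
  · exact ⟨2, by norm_num, -1, Or.inr rfl, by norm_num⟩
  · exact absurd (by norm_num) h3
  · exact ⟨1, by norm_num, -1, Or.inr rfl, by norm_num⟩
  · exact ⟨0, by norm_num, -1, Or.inr rfl, by norm_num⟩
  · exact absurd (by norm_num) h3
  · exact ⟨0, by norm_num, 1, Or.inl rfl, by norm_num⟩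
  · exact ⟨1, by norm_num, 1, Or.inl rfl, by norm_num⟩
  · exact absurd (by norm_num) h3
  · exact ⟨2, by norm_num, 1, Or.inl rfl, by norm_num⟩

theorem sign_mul {σ σ' : ℤ} (h : σ = 1 ∨ σ = -1) (h' : σ' = 1 ∨ σ' = -1) :
    σ * σ' = 1 ∨ σ * σ' = -1 := by
  rcases h with rfl | rfl <;> rcases h' with rfl | rfl <;> simp

/-- the common factor `p ^ m` of `q ^ g * σ q ^ s - σ' q ^ s'` -/
theorem factor {p q : ℤ} {m g s s' : ℕ} (hpq : IsCoprime p q) {σ σ' : ℤ}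
    (hσ : σ = 1 ∨ σ = -1) (hs : s' ≤ g + s)
    (h : p ^ m ∣ q ^ g * (σ * q ^ s) - σ' * q ^ s') : p ^ m ∣ q ^ (g + s - s') - σ * σ' := by
  have e : q ^ g * (σ * q ^ s) - σ' * q ^ s' = (q ^ s' * σ) * (q ^ (g + s - s') - σ * σ') := by
    have e1 : q ^ g * q ^ s = q ^ s' * q ^ (g + s - s') := by
      rw [← pow_add, ← pow_add]
      congr 1
      omega
    have e2 : σ * σ = 1 := by rcases hσ with rfl | rfl <;> norm_num
    calc q ^ g * (σ * q ^ s) - σ' * q ^ s' = σ * (q ^ g * q ^ s) - σ' * q ^ s' := by ring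
      _ = σ * (q ^ s' * q ^ (g + s - s')) - (σ * σ) * σ' * q ^ s' := by rw [e1, e2]; ring
      _ = _ := by ring
  rw [e] at h
  have hc : IsCoprime (p ^ m) (q ^ s' * σ) := by
    apply IsCoprime.mul_right
    · exact IsCoprime.pow hpq
    · rcases hσ with rfl | rfl
      · exact isCoprime_one_right
      · exact isCoprime_one_right.neg_right
  exact hc.dvd_of_dvd_mul_left h

/-- the `3`-adic step -/
theorem core3 {a b u m : ℕ} {d d' : ℤ} (hu : ¬ 3 ∣ u) (hab : a + 3 ≤ b)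
    (h1 : -4 ≤ d) (h2 : d ≤ 4) (h1' : -4 ≤ d') (h2' : d' ≤ 4)
    (hy : (3 : ℤ) ^ m ∣ 2 ^ a * u + d) (hy' : (3 : ℤ) ^ m ∣ 2 ^ b * u + d') :
    3 ^ m ≤ 3 * (b - a + 2) := by
  rcases Nat.eq_zero_or_pos m with hm | hm
  · rw [hm]; omega
  have h3 : ∀ c : ℕ, ¬ (3 : ℤ) ∣ 2 ^ c * u := fun c hc => by
    have h4 : ((3 : ℕ) : ℤ) ∣ ((2 ^ c * u : ℕ) : ℤ) := by push_cast; exact hc
    have h5 : 3 ∣ 2 ^ c * u := by exact_mod_cast h4
    rcases (Nat.Prime.dvd_mul Nat.prime_three).1 h5 with h6 | h6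
    · have := Nat.prime_three.dvd_of_dvd_pow h6
      omega
    · exact hu h6
  have h3m : (3 : ℤ) ∣ 3 ^ m := dvd_pow_self 3 (by omega)
  have hd : ¬ (3 : ℤ) ∣ d := fun hd => h3 a ((dvd_add_left hd).1 (h3m.trans hy))
  have hd' : ¬ (3 : ℤ) ∣ d' := fun hd => h3 b ((dvd_add_left hd).1 (h3m.trans hy'))
  obtain ⟨s, hs, σ, hσ, rfl⟩ := pm_two h1 h2 hd
  obtain ⟨s', hs', σ', hσ', rfl⟩ := pm_two h1' h2' hd'
  obtain ⟨g, rfl⟩ : ∃ g, b = a + g := ⟨b - a, by omega⟩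
  have h4 : (3 : ℤ) ^ m ∣ 2 ^ g * (σ * 2 ^ s) - σ' * 2 ^ s' := by
    have h5 := dvd_sub (hy.mul_left (2 ^ g)) hy'
    have e : (2 : ℤ) ^ g * (2 ^ a * u + σ * 2 ^ s) - (2 ^ (a + g) * u + σ' * 2 ^ s') =
        2 ^ g * (σ * 2 ^ s) - σ' * 2 ^ s' := by
      rw [pow_add]; ring
    rwa [e] at h5
  have h5 := factor (by norm_num : IsCoprime (3 : ℤ) 2) hσ (by omega) h4
  have h6 := int3 (by omega) (sign_mul hσ hσ') h5
  omega

/-- the `2`-adic step -/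
theorem core2 {a b u m : ℕ} {d d' : ℤ} (hu : ¬ 8 ∣ u) (hab : a + 2 ≤ b)
    (h1 : -4 ≤ d) (h2 : d ≤ 4) (h1' : -4 ≤ d') (h2' : d' ≤ 4)
    (hy : (2 : ℤ) ^ m ∣ 3 ^ a * u + d) (hy' : (2 : ℤ) ^ m ∣ 3 ^ b * u + d') :
    2 ^ m ≤ 32 * (b - a + 1) := by
  rcases Nat.lt_or_ge m 4 with hm | hm
  · calc 2 ^ m ≤ 2 ^ 3 := Nat.pow_le_pow_right (by norm_num) (by omega)
      _ ≤ 32 * (b - a + 1) := by omega
  have h16 : (16 : ℤ) ∣ 2 ^ m := by
    have : (2 : ℤ) ^ 4 ∣ 2 ^ m := pow_dvd_pow 2 hm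
    norm_num at this
    exact this
  have hdv : ∀ (c e : ℕ), (2 : ℤ) ^ e ∣ 3 ^ c * u ↔ 2 ^ e ∣ u := fun c e => by
    have hc : Nat.Coprime (2 ^ e) (3 ^ c) := Nat.Coprime.pow _ _ (by norm_num)
    have e1 : (2 : ℤ) ^ e ∣ 3 ^ c * u ↔ ((2 ^ e : ℕ) : ℤ) ∣ ((3 ^ c * u : ℕ) : ℤ) := by
      push_cast; exact Iff.rfl
    rw [e1, Int.natCast_dvd_natCast]
    exact ⟨fun h => hc.dvd_of_dvd_mul_left h, fun h => h.mul_left _⟩
  have k1 := hdv a 1
  have k2 := hdv a 2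
  have k3 := hdv a 3
  have l1 := hdv b 1
  have l2 := hdv b 2
  have l3 := hdv b 3
  norm_num at k1 k2 k3 l1 l2 l3
  have hy16 := h16.trans hy
  have hy16' := h16.trans hy'
  obtain ⟨g, rfl⟩ : ∃ g, b = a + g := ⟨b - a, by omega⟩
  have h4 : (2 : ℤ) ^ m ∣ 3 ^ g * d - d' := by
    have h5 := dvd_sub (hy.mul_left (3 ^ g)) hy'
    have e : (3 : ℤ) ^ g * (3 ^ a * u + d) - (3 ^ (a + g) * u + d') = 3 ^ g * d - d' := by
      rw [pow_add]; ring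
    rwa [e] at h5
  -- the common power of `2` in `d` and `d'`
  have key : ∃ r ≤ 2, ∃ δ δ' : ℤ, d = 2 ^ r * δ ∧ d' = 2 ^ r * δ' ∧
      (δ = 1 ∨ δ = -1 ∨ δ = 3 ∨ δ = -3) ∧ (δ' = 1 ∨ δ' = -1 ∨ δ' = 3 ∨ δ' = -3) := by
    generalize (3 : ℤ) ^ a * u = V at *
    generalize (3 : ℤ) ^ (a + g) * u = V' at *
    by_cases c1 : 2 ∣ u
    · by_cases c2 : 4 ∣ u
      · refine ⟨2, le_refl _, d / 4, d' / 4, ?_, ?_, ?_, ?_⟩ <;> omega
      · refine ⟨1, by norm_num, d / 2, d' / 2, ?_, ?_, ?_, ?_⟩ <;> omega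
    · refine ⟨0, by norm_num, d, d', ?_, ?_, ?_, ?_⟩ <;> omega
  obtain ⟨r, hr, δ, δ', hδ, hδ', hh, hh'⟩ := key
  have rep : ∀ δ : ℤ, (δ = 1 ∨ δ = -1 ∨ δ = 3 ∨ δ = -3) →
      ∃ s : ℕ, s ≤ 1 ∧ ∃ σ : ℤ, (σ = 1 ∨ σ = -1) ∧ δ = σ * 3 ^ s := by
    rintro δ (rfl | rfl | rfl | rfl)
    · exact ⟨0, by norm_num, 1, Or.inl rfl, by norm_num⟩
    · exact ⟨0, by norm_num, -1, Or.inr rfl, by norm_num⟩
    · exact ⟨1, by norm_num, 1, Or.inl rfl, by norm_num⟩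
    · exact ⟨1, by norm_num, -1, Or.inr rfl, by norm_num⟩
  obtain ⟨s, hs, σ, hσ, hδs⟩ := rep δ hh
  obtain ⟨s', hs', σ', hσ', hδs'⟩ := rep δ' hh'
  obtain ⟨m', rfl⟩ : ∃ m', m = m' + r := ⟨m - r, by omega⟩
  have h5 : (2 : ℤ) ^ m' ∣ 3 ^ g * (σ * 3 ^ s) - σ' * 3 ^ s' := by
    have e : 3 ^ g * d - d' = 2 ^ r * (3 ^ g * (σ * 3 ^ s) - σ' * 3 ^ s') := by
      rw [hδ, hδ', hδs, hδs']; ring
    rw [e, pow_add, mul_comm ((2 : ℤ) ^ m')] at h4
    exact Int.dvd_of_mul_dvd_mul_left (by positivity) h4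
  have h6 := factor (by norm_num : IsCoprime (2 : ℤ) 3) hσ (by omega) h5
  have h7 := int2 (by omega) (sign_mul hσ hσ') h6
  calc 2 ^ (m' + r) = 2 ^ m' * 2 ^ r := pow_add _ _ _
    _ ≤ (8 * (g + s - s')) * 2 ^ 2 :=
        Nat.mul_le_mul h7 (Nat.pow_le_pow_right (by norm_num) hr)
    _ ≤ 32 * (a + g - a + 1) := by omega

/-- the `p`-part of a member is at least of size `√n` -/
theorem part_large {n k p : ℕ} (hk : k = 3 ∨ k = 5 ∨ k = 7) (hp : p = 2 ∨ p = 3) (hkn : k ≤ n)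
    (h : largePart n k < smallPart n k) : n ≤ k ^ k * (part n k p) ^ 2 := by
  rcases hk with rfl | rfl | rfl
  · refine bound_of' (k := 3) (r := 1) (by norm_num) hkn h ?_
    rw [small_three, pow_one]
    rcases hp with rfl | rfl
    · rw [mul_comm]
      exact Nat.mul_le_mul_right _ (part_le (by omega))
    · exact Nat.mul_le_mul_right _ (part_le (by omega))
  · refine bound_of' (k := 5) (r := 2) (by norm_num) hkn h ?_
    rw [small_five]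
    have q2 : part n 5 2 ≤ n := part_le (by omega)
    have q3 : part n 5 3 ≤ n := part_le (by omega)
    have q5 : part n 5 5 ≤ n := part_le (by omega)
    rcases hp with rfl | rfl
    · calc part n 5 2 * part n 5 3 * part n 5 5 ≤ part n 5 2 * n * n :=
            Nat.mul_le_mul (Nat.mul_le_mul_left _ q3) q5
        _ = n ^ 2 * part n 5 2 := by ring
    · calc part n 5 2 * part n 5 3 * part n 5 5 ≤ n * part n 5 3 * n :=
            Nat.mul_le_mul (Nat.mul_le_mul_right _ q2) q5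
        _ = n ^ 2 * part n 5 3 := by ring
  · refine bound_of' (k := 7) (r := 3) (by norm_num) hkn h ?_
    rw [small_seven]
    have q2 : part n 7 2 ≤ n := part_le (by omega)
    have q3 : part n 7 3 ≤ n := part_le (by omega)
    have q5 : part n 7 5 ≤ n := part_le (by omega)
    have q7 : part n 7 7 ≤ n := part_le (by omega)
    rcases hp with rfl | rfl
    · calc part n 7 2 * part n 7 3 * part n 7 5 * part n 7 7 ≤ part n 7 2 * n * n * n :=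
            Nat.mul_le_mul (Nat.mul_le_mul (Nat.mul_le_mul_left _ q3) q5) q7
        _ = n ^ 3 * part n 7 2 := by ring
    · calc part n 7 2 * part n 7 3 * part n 7 5 * part n 7 7 ≤ n * part n 7 3 * n * n :=
            Nat.mul_le_mul (Nat.mul_le_mul (Nat.mul_le_mul_right _ q2) q5) q7
        _ = n ^ 3 * part n 7 3 := by ring

/-- two members: a common power of `p` -/
theorem two_members {n n' k p : ℕ} (hk : k = 3 ∨ k = 5 ∨ k = 7) (hp : p = 2 ∨ p = 3) (hkn : k ≤ n)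
    (hnn : n ≤ n') (h : largePart n k < smallPart n k) (h' : largePart n' k < smallPart n' k) :
    ∃ m j j' : ℕ, j < k ∧ j' < k ∧ p ^ m ∣ n - j ∧ p ^ m ∣ n' - j' ∧ n ≤ k ^ k * (p ^ m) ^ 2 := by
  have hpp : p.Prime := by rcases hp with rfl | rfl <;> norm_num
  obtain ⟨j, hj, hd⟩ := exists_index (p := p) (n := n) (k := k) hpp (by omega) hkn
  obtain ⟨j', hj', hd'⟩ := exists_index (p := p) (n := n') (k := k) hpp (by omega) (by omega)
  have b1 := part_large hk hp hkn h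
  have b2 := part_large hk hp (by omega : k ≤ n') h'
  unfold part at hd hd' b1 b2
  rcases le_total ((n.choose k).factorization p) ((n'.choose k).factorization p) with hle | hle
  · exact ⟨_, j, j', hj, hj', hd, (pow_dvd_pow p hle).trans hd', b1⟩
  · exact ⟨_, j, j', hj, hj', (pow_dvd_pow p hle).trans hd, hd', hnn.trans b2⟩

theorem cofactor_two {n n' k a b u i i' : ℕ} (hk : k = 3 ∨ k = 5 ∨ k = 7) (hkn : k ≤ n)
    (hi : i < k ∧ i ≤ 4 ∧ k ≤ i + 5) (hi' : i' < k ∧ i' ≤ 4 ∧ k ≤ i' + 5) (hu : ¬ 3 ∣ u) (hab : a + 3 ≤ b)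
    (hn : n = 2 ^ a * u + i) (hn' : n' = 2 ^ b * u + i')
    (h : largePart n k < smallPart n k) (h' : largePart n' k < smallPart n' k) :
    n ≤ 9 * k ^ k * (b - a + 2) ^ 2 := by
  have hu0 : 0 < u := Nat.pos_of_ne_zero (by rintro rfl; exact hu (dvd_zero 3))
  have hx : 1 ≤ 2 ^ a * u := Nat.mul_pos (by positivity) hu0
  have hbig : 8 * (2 ^ a * u) ≤ 2 ^ b * u := by
    calc 8 * (2 ^ a * u) = 2 ^ (a + 3) * u := by rw [pow_add]; ring
      _ ≤ 2 ^ b * u := Nat.mul_le_mul_right _ (Nat.pow_le_pow_right (by norm_num) hab)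
  obtain ⟨m, j, j', hj, hj', hd, hd', hb⟩ := two_members (p := 3) hk (Or.inr rfl) hkn
    (by omega : n ≤ n') h h'
  have e : ((n - j : ℕ) : ℤ) = 2 ^ a * u + ((i : ℤ) - j) := by
    rw [Nat.cast_sub (by omega), hn]; push_cast; ring
  have e' : ((n' - j' : ℕ) : ℤ) = 2 ^ b * u + ((i' : ℤ) - j') := by
    rw [Nat.cast_sub (by omega), hn']; push_cast; ring
  have hc := core3 (d := (i : ℤ) - j) (d' := (i' : ℤ) - j') (m := m) hu hab
    (by omega) (by omega) (by omega) (by omega)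
    (by rw [← e]; exact_mod_cast hd) (by rw [← e']; exact_mod_cast hd')
  calc n ≤ k ^ k * (3 ^ m) ^ 2 := hb
    _ ≤ k ^ k * (3 * (b - a + 2)) ^ 2 := Nat.mul_le_mul_left _ (Nat.pow_le_pow_left hc 2)
    _ = 9 * k ^ k * (b - a + 2) ^ 2 := by ring

theorem cofactor_three {n n' k a b u i i' : ℕ} (hk : k = 3 ∨ k = 5 ∨ k = 7) (hkn : k ≤ n)
    (hi : i < k ∧ i ≤ 4 ∧ k ≤ i + 5) (hi' : i' < k ∧ i' ≤ 4 ∧ k ≤ i' + 5) (hu : ¬ 8 ∣ u) (hab : a + 2 ≤ b)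
    (hn : n = 3 ^ a * u + i) (hn' : n' = 3 ^ b * u + i')
    (h : largePart n k < smallPart n k) (h' : largePart n' k < smallPart n' k) :
    n ≤ 1024 * k ^ k * (b - a + 1) ^ 2 := by
  have hu0 : 0 < u := Nat.pos_of_ne_zero (by rintro rfl; exact hu (dvd_zero 8))
  have hx : 1 ≤ 3 ^ a * u := Nat.mul_pos (by positivity) hu0
  have hbig : 9 * (3 ^ a * u) ≤ 3 ^ b * u := by
    calc 9 * (3 ^ a * u) = 3 ^ (a + 2) * u := by rw [pow_add]; ring
      _ ≤ 3 ^ b * u := Nat.mul_le_mul_right _ (Nat.pow_le_pow_right (by norm_num) hab)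
  obtain ⟨m, j, j', hj, hj', hd, hd', hb⟩ := two_members (p := 2) hk (Or.inl rfl) hkn
    (by omega : n ≤ n') h h'
  have e : ((n - j : ℕ) : ℤ) = 3 ^ a * u + ((i : ℤ) - j) := by
    rw [Nat.cast_sub (by omega), hn]; push_cast; ring
  have e' : ((n' - j' : ℕ) : ℤ) = 3 ^ b * u + ((i' : ℤ) - j') := by
    rw [Nat.cast_sub (by omega), hn']; push_cast; ring
  have hc := core2 (d := (i : ℤ) - j) (d' := (i' : ℤ) - j') (m := m) hu hab
    (by omega) (by omega) (by omega) (by omega)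
    (by rw [← e]; exact_mod_cast hd) (by rw [← e']; exact_mod_cast hd')
  calc n ≤ k ^ k * (2 ^ m) ^ 2 := hb
    _ ≤ k ^ k * (32 * (b - a + 1)) ^ 2 := Nat.mul_le_mul_left _ (Nat.pow_le_pow_left hc 2)
    _ = 1024 * k ^ k * (b - a + 1) ^ 2 := by ring

end Pool.Agent.Lib.MP_331cea_nt
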