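import Pool.Agent.Lib.MP_331cea_nt.Gap

set_option autoImplicit false

/-!
Two (for `k = 5, 7`) or three (for `k = 3`) solutions with the same pattern are far apart; counting.
-/

namespace Pool.Agent.Lib.MP_331cea_nt

open Finset

/-- two solutions with the same pattern -/
theorem pair_bound {n n' k M N : ℕ} (hlt : n < n') (hM : M ≤ n) (hN : n' ≤ N) (hk : k ≤ n)
    (hk1 : 1 ≤ k) (hr : 2 * (pr k).card + 2 = k + 3)
    (hn : largePart n k < smallPart n k) (hn' : largePart n' k < smallPart n' k)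
    (idx : ℕ → ℕ) (h1 : ∀ p ∈ pr k, idx p < k) (h2 : ∀ p ∈ pr k, part n k p ∣ n - idx p)
    (h3 : ∀ p ∈ pr k, part n' k p ∣ n' - idx p) :
    M ^ k ≤ k ^ (2 * k) * N ^ 3 := by
  have hpr : ∀ p ∈ pr k, p.Prime := fun p hp => (mem_filter.1 hp).2
  have hmin := prod_min_le hpr hlt idx h1 hk h2 h3
  have hU : smallPart n k * smallPart n' k ≤ n' ^ ((pr k).card + 1) := by
    rw [small_eq, small_eq, ← Finset.prod_mul_distrib]
    calc ∏ p ∈ pr k, part n k p * part n' k p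
        = (∏ p ∈ pr k, min (part n k p) (part n' k p)) *
            ∏ p ∈ pr k, max (part n k p) (part n' k p) := by
          rw [← Finset.prod_mul_distrib]
          exact Finset.prod_congr rfl fun p _ => (min_mul_max _ _).symm
      _ ≤ n' * n' ^ (pr k).card := by
          refine Nat.mul_le_mul hmin ?_
          refine Finset.prod_le_pow_card _ _ _ fun p _ => max_le ?_ ?_
          · exact (part_le (by omega)).trans hlt.le
          · exact part_le (by omega)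
      _ = n' ^ ((pr k).card + 1) := by rw [pow_succ, mul_comm]
  have s1 := sq_bound hk hn
  have s2 := sq_bound (hk.trans hlt.le) hn'
  have h4 : n ^ k * n' ^ k ≤ (k ^ (2 * k) * n' ^ 3) * n' ^ k := by
    calc n ^ k * n' ^ k ≤ (k ^ k * smallPart n k ^ 2) * (k ^ k * smallPart n' k ^ 2) :=
          Nat.mul_le_mul s1 s2
      _ = k ^ (2 * k) * (smallPart n k * smallPart n' k) ^ 2 := by ring
      _ ≤ k ^ (2 * k) * (n' ^ ((pr k).card + 1)) ^ 2 :=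
          Nat.mul_le_mul_left _ (Nat.pow_le_pow_left hU 2)
      _ = k ^ (2 * k) * n' ^ (k + 3) := by
          rw [← pow_mul, ← hr]
          congr 2
          ring
      _ = (k ^ (2 * k) * n' ^ 3) * n' ^ k := by ring
  have h5 : n ^ k ≤ k ^ (2 * k) * n' ^ 3 :=
    Nat.le_of_mul_le_mul_right h4 (pow_pos (by omega) k)
  exact (Nat.pow_le_pow_left hM k).trans
    (h5.trans (Nat.mul_le_mul_left _ (Nat.pow_le_pow_left hN 3)))

/-- three pairs of numbers, sorted by the first component -/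
theorem sorted_bound {M N x1 x2 x3 p1 p2 p3 q1 q2 q3 : ℕ} (h12 : p1 ≤ p2) (h23 : p2 ≤ p3)
    (hM1 : M ≤ x1) (hM2 : M ≤ x2) (hM3 : M ≤ x3) (hN1 : x1 ≤ N) (hN2 : x2 ≤ N) (hN3 : x3 ≤ N)
    (hx1 : 0 < x1) (hx2 : 0 < x2) (hx3 : 0 < x3)
    (a1 : min p1 p2 * min q1 q2 ≤ max x1 x2) (a2 : min p2 p3 * min q2 q3 ≤ max x2 x3)
    (hq1 : q1 ≤ x1) (hp3 : p3 ≤ x3) (m1 : x1 ^ 3 ≤ 27 * (p1 * q1) ^ 2)
    (m2 : x2 ^ 3 ≤ 27 * (p2 * q2) ^ 2) (m3 : x3 ^ 3 ≤ 27 * (p3 * q3) ^ 2) :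
    M ^ 3 ≤ 3 ^ 9 * N ^ 2 := by
  rw [min_eq_left h12] at a1
  rw [min_eq_left h23] at a2
  have key : ∀ x y : ℕ, M ≤ x → x ^ 3 ≤ 27 * y ^ 2 → y ≤ N → M ^ 3 ≤ 3 ^ 9 * N ^ 2 := by
    intro x y h0 h1 h2
    calc M ^ 3 ≤ x ^ 3 := Nat.pow_le_pow_left h0 3
      _ ≤ 27 * y ^ 2 := h1
      _ ≤ 27 * N ^ 2 := Nat.mul_le_mul_left _ (Nat.pow_le_pow_left h2 2)
      _ ≤ 3 ^ 9 * N ^ 2 := Nat.mul_le_mul_right _ (by norm_num)
  rcases le_total q1 q2 with h | h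
  · rw [min_eq_left h] at a1
    exact key x1 _ hM1 m1 (a1.trans (max_le hN1 hN2))
  rcases le_total q2 q3 with h' | h'
  · rw [min_eq_left h'] at a2
    exact key x2 _ hM2 m2 (a2.trans (max_le hN2 hN3))
  rw [min_eq_right h] at a1
  rw [min_eq_right h'] at a2
  have e1 : x1 ≤ 27 * p1 ^ 2 := by
    have h1 : x1 ^ 2 * x1 ≤ x1 ^ 2 * (27 * p1 ^ 2) := by
      calc x1 ^ 2 * x1 = x1 ^ 3 := by ring
        _ ≤ 27 * (p1 * q1) ^ 2 := m1
        _ ≤ 27 * (p1 * x1) ^ 2 :=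
            Nat.mul_le_mul_left _ (Nat.pow_le_pow_left (Nat.mul_le_mul_left _ hq1) 2)
        _ = x1 ^ 2 * (27 * p1 ^ 2) := by ring
    exact Nat.le_of_mul_le_mul_left h1 (by positivity)
  have e3 : x3 ≤ 27 * q3 ^ 2 := by
    have h1 : x3 ^ 2 * x3 ≤ x3 ^ 2 * (27 * q3 ^ 2) := by
      calc x3 ^ 2 * x3 = x3 ^ 3 := by ring
        _ ≤ 27 * (p3 * q3) ^ 2 := m3
        _ ≤ 27 * (x3 * q3) ^ 2 :=
            Nat.mul_le_mul_left _ (Nat.pow_le_pow_left (Nat.mul_le_mul_right _ hp3) 2)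
        _ = x3 ^ 2 * (27 * q3 ^ 2) := by ring
    exact Nat.le_of_mul_le_mul_left h1 (by positivity)
  have h4 : x1 * x2 ^ 3 * x3 ≤ 3 ^ 9 * (max x1 x2 * max x2 x3) ^ 2 := by
    calc x1 * x2 ^ 3 * x3 ≤ (27 * p1 ^ 2) * (27 * (p2 * q2) ^ 2) * (27 * q3 ^ 2) :=
          Nat.mul_le_mul (Nat.mul_le_mul e1 m2) e3
      _ = 3 ^ 9 * ((p1 * q2) * (p2 * q3)) ^ 2 := by ring
      _ ≤ 3 ^ 9 * (max x1 x2 * max x2 x3) ^ 2 :=
          Nat.mul_le_mul_left _ (Nat.pow_le_pow_left (Nat.mul_le_mul a1 a2) 2)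
  have fin : ∀ u v w : ℕ, M ≤ u → M ≤ v → w ≤ N → u * v ≤ 3 ^ 9 * w → M ^ 3 ≤ 3 ^ 9 * N ^ 2 := by
    intro u v w hu hv hw huv
    have hMN : M ≤ N := hM1.trans hN1
    calc M ^ 3 = M * M * M := by ring
      _ ≤ (u * v) * N := Nat.mul_le_mul (Nat.mul_le_mul hu hv) hMN
      _ ≤ (3 ^ 9 * N) * N := Nat.mul_le_mul_right _ (huv.trans (Nat.mul_le_mul_left _ hw))
      _ = 3 ^ 9 * N ^ 2 := by ring
  rcases le_total x1 x2 with c1 | c1 <;> rcases le_total x2 x3 with c2 | c2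
  · rw [max_eq_right c1, max_eq_right c2] at h4
    refine fin x1 x2 x3 hM1 hM2 hN3 ?_
    have h5 : (x2 ^ 2 * x3) * (x1 * x2) ≤ (x2 ^ 2 * x3) * (3 ^ 9 * x3) := by
      calc (x2 ^ 2 * x3) * (x1 * x2) = x1 * x2 ^ 3 * x3 := by ring
        _ ≤ _ := h4
        _ = (x2 ^ 2 * x3) * (3 ^ 9 * x3) := by ring
    exact Nat.le_of_mul_le_mul_left h5 (by positivity)
  · rw [max_eq_right c1, max_eq_left c2] at h4
    refine fin x1 x3 x2 hM1 hM3 hN2 ?_
    have h5 : x2 ^ 3 * (x1 * x3) ≤ x2 ^ 3 * (3 ^ 9 * x2) := by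
      calc x2 ^ 3 * (x1 * x3) = x1 * x2 ^ 3 * x3 := by ring
        _ ≤ _ := h4
        _ = x2 ^ 3 * (3 ^ 9 * x2) := by ring
    exact Nat.le_of_mul_le_mul_left h5 (by positivity)
  · rw [max_eq_left c1, max_eq_right c2] at h4
    have h5 : (x1 * x3) * x2 ^ 3 ≤ (x1 * x3) * (3 ^ 9 * (x1 * x3)) := by
      calc (x1 * x3) * x2 ^ 3 = x1 * x2 ^ 3 * x3 := by ring
        _ ≤ _ := h4
        _ = (x1 * x3) * (3 ^ 9 * (x1 * x3)) := by ring
    have h6 := Nat.le_of_mul_le_mul_left h5 (by positivity)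
    calc M ^ 3 ≤ x2 ^ 3 := Nat.pow_le_pow_left hM2 3
      _ ≤ 3 ^ 9 * (x1 * x3) := h6
      _ ≤ 3 ^ 9 * (N * N) := Nat.mul_le_mul_left _ (Nat.mul_le_mul hN1 hN3)
      _ = 3 ^ 9 * N ^ 2 := by ring
  · rw [max_eq_left c1, max_eq_left c2] at h4
    refine fin x2 x3 x1 hM2 hM3 hN1 ?_
    have h5 : (x1 * x2 ^ 2) * (x2 * x3) ≤ (x1 * x2 ^ 2) * (3 ^ 9 * x1) := by
      calc (x1 * x2 ^ 2) * (x2 * x3) = x1 * x2 ^ 3 * x3 := by ring
        _ ≤ _ := h4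
        _ = (x1 * x2 ^ 2) * (3 ^ 9 * x1) := by ring
    exact Nat.le_of_mul_le_mul_left h5 (by positivity)

/-- three pairs of numbers -/
theorem triple_bound {M N x1 x2 x3 p1 p2 p3 q1 q2 q3 : ℕ}
    (hM1 : M ≤ x1) (hM2 : M ≤ x2) (hM3 : M ≤ x3) (hN1 : x1 ≤ N) (hN2 : x2 ≤ N) (hN3 : x3 ≤ N)
    (hx1 : 0 < x1) (hx2 : 0 < x2) (hx3 : 0 < x3)
    (a12 : min p1 p2 * min q1 q2 ≤ max x1 x2) (a13 : min p1 p3 * min q1 q3 ≤ max x1 x3)
    (a23 : min p2 p3 * min q2 q3 ≤ max x2 x3)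
    (hp1 : p1 ≤ x1) (hp2 : p2 ≤ x2) (hp3 : p3 ≤ x3) (hq1 : q1 ≤ x1) (hq2 : q2 ≤ x2)
    (hq3 : q3 ≤ x3) (m1 : x1 ^ 3 ≤ 27 * (p1 * q1) ^ 2) (m2 : x2 ^ 3 ≤ 27 * (p2 * q2) ^ 2)
    (m3 : x3 ^ 3 ≤ 27 * (p3 * q3) ^ 2) : M ^ 3 ≤ 3 ^ 9 * N ^ 2 := by
  have b21 : min p2 p1 * min q2 q1 ≤ max x2 x1 := by
    rw [min_comm p2, min_comm q2, max_comm]; exact a12
  have b31 : min p3 p1 * min q3 q1 ≤ max x3 x1 := by
    rw [min_comm p3, min_comm q3, max_comm]; exact a13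
  have b32 : min p3 p2 * min q3 q2 ≤ max x3 x2 := by
    rw [min_comm p3, min_comm q3, max_comm]; exact a23
  rcases le_total p1 p2 with h12 | h12 <;> rcases le_total p1 p3 with h13 | h13 <;>
    rcases le_total p2 p3 with h23 | h23
  · exact sorted_bound h12 h23 hM1 hM2 hM3 hN1 hN2 hN3 hx1 hx2 hx3 a12 a23 hq1 hp3 m1 m2 m3
  · exact sorted_bound h13 h23 hM1 hM3 hM2 hN1 hN3 hN2 hx1 hx3 hx2 a13 b32 hq1 hp2 m1 m3 m2
  · exact sorted_bound h12 h23 hM1 hM2 hM3 hN1 hN2 hN3 hx1 hx2 hx3 a12 a23 hq1 hp3 m1 m2 m3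
  · exact sorted_bound h13 h12 hM3 hM1 hM2 hN3 hN1 hN2 hx3 hx1 hx2 b31 a12 hq3 hp2 m3 m1 m2
  · exact sorted_bound h12 h13 hM2 hM1 hM3 hN2 hN1 hN3 hx2 hx1 hx3 b21 a13 hq2 hp3 m2 m1 m3
  · exact sorted_bound h12 h13 hM2 hM1 hM3 hN2 hN1 hN3 hx2 hx1 hx3 b21 a13 hq2 hp3 m2 m1 m3
  · exact sorted_bound h23 h13 hM2 hM3 hM1 hN2 hN3 hN1 hx2 hx3 hx1 a23 b31 hq2 hp1 m2 m3 m1
  · exact sorted_bound h23 h12 hM3 hM2 hM1 hN3 hN2 hN1 hx3 hx2 hx1 b32 b21 hq3 hp1 m3 m2 m1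

theorem pr_three : pr 3 = {2, 3} := by decide

theorem card_pr_three : (pr 3).card = 2 := by decide

theorem card_pr_five : (pr 5).card = 3 := by decide

theorem card_pr_seven : (pr 7).card = 4 := by decide

/-- the solutions in `[M, N]` -/
def sol (M N k : ℕ) : Finset ℕ :=
  (Icc M N).filter fun n => 2 * k ≤ n ∧ largePart n k < smallPart n k

/-- counting by patterns -/
theorem count {k c M N : ℕ} (hk : 1 ≤ k)
    (h : ∀ idx : ℕ → ℕ, (∀ p ∈ pr k, idx p < k) → ∀ s ⊆ sol M N k,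
      (∀ n ∈ s, ∀ p ∈ pr k, part n k p ∣ n - idx p) → s.card ≤ c) :
    (sol M N k).card ≤ c * k ^ (pr k).card := by
  classical
  have hex : ∀ n p : ℕ, ∃ i, (k ≤ n → p.Prime → (i < k ∧ part n k p ∣ n - i)) := by
    intro n p
    by_cases h1 : k ≤ n ∧ p.Prime
    · obtain ⟨i, hi, hd⟩ := exists_index h1.2 hk h1.1
      exact ⟨i, fun _ _ => ⟨hi, hd⟩⟩
    · exact ⟨0, fun a b => absurd ⟨a, b⟩ h1⟩
  choose idx hidx using hex
  have hsol : ∀ n ∈ sol M N k, k ≤ n := by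
    intro n hn
    have := (mem_filter.1 hn).2.1
    omega
  have hpr : ∀ p ∈ pr k, p.Prime := fun p hp => (mem_filter.1 hp).2
  let f : ℕ → (pr k → ℕ) := fun n p => idx n p
  have hmaps : ∀ n ∈ sol M N k, f n ∈ Fintype.piFinset fun _ : pr k => range k := by
    intro n hn
    rw [Fintype.mem_piFinset]
    intro p
    rw [mem_range]
    exact (hidx n p (hsol n hn) (hpr p p.2)).1
  have hcard : (Fintype.piFinset fun _ : pr k => range k).card = k ^ (pr k).card := by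
    rw [Fintype.card_piFinset]
    simp
  rw [← hcard]
  refine Finset.card_le_mul_card_image_of_maps_to hmaps c ?_
  intro b hb
  rw [Fintype.mem_piFinset] at hb
  refine h (fun p => if hp : p ∈ pr k then b ⟨p, hp⟩ else 0) ?_ _ (filter_subset _ _) ?_
  · intro p hp
    rw [dif_pos hp]
    exact mem_range.1 (hb ⟨p, hp⟩)
  · intro n hn p hp
    rw [mem_filter] at hn
    rw [dif_pos hp, ← hn.2]
    exact (hidx n p (hsol n hn.1) (hpr p hp)).2

/-- `k = 5` and `k = 7`: no two solutions with the same pattern -/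
theorem fibre_one {k M N : ℕ} (hk : 1 ≤ k) (hr : 2 * (pr k).card + 2 = k + 3)
    (hMN : k ^ (2 * k) * N ^ 3 < M ^ k)
    (idx : ℕ → ℕ) (h1 : ∀ p ∈ pr k, idx p < k) (s : Finset ℕ) (hs : s ⊆ sol M N k)
    (h2 : ∀ n ∈ s, ∀ p ∈ pr k, part n k p ∣ n - idx p) : s.card ≤ 1 := by
  rw [Finset.card_le_one]
  have key : ∀ a ∈ s, ∀ b ∈ s, ¬ a < b := by
    intro a ha b hb hlt
    have ha' := mem_filter.1 (hs ha)
    have hb' := mem_filter.1 (hs hb)
    have := pair_bound hlt (mem_Icc.1 ha'.1).1 (mem_Icc.1 hb'.1).2 (by omega) hk hr ha'.2.2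
      hb'.2.2 idx h1 (h2 a ha) (h2 b hb)
    omega
  intro a ha b hb
  rcases lt_trichotomy a b with h | h | h
  · exact absurd h (key a ha b hb)
  · exact h
  · exact absurd h (key b hb a ha)

/-- `k = 3`: no three solutions with the same pattern -/
theorem fibre_two {M N : ℕ} (hMN : 3 ^ 9 * N ^ 2 < M ^ 3)
    (idx : ℕ → ℕ) (h1 : ∀ p ∈ pr 3, idx p < 3) (s : Finset ℕ) (hs : s ⊆ sol M N 3)
    (h2 : ∀ n ∈ s, ∀ p ∈ pr 3, part n 3 p ∣ n - idx p) : s.card ≤ 2 := by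
  by_contra hcon
  push Not at hcon
  obtain ⟨a, ha, b, hb, c, hc, hab, hac, hbc⟩ := Finset.two_lt_card.1 hcon
  have hpr : ∀ p ∈ pr 3, p.Prime := fun p hp => (mem_filter.1 hp).2
  have hpair : ∀ x ∈ s, ∀ y ∈ s, x ≠ y →
      min (part x 3 2) (part y 3 2) * min (part x 3 3) (part y 3 3) ≤ max x y := by
    have key : ∀ x ∈ s, ∀ y ∈ s, x < y →
        min (part x 3 2) (part y 3 2) * min (part x 3 3) (part y 3 3) ≤ y := by
      intro x hx y hy hlt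
      have hx' := mem_filter.1 (hs hx)
      have := prod_min_le (k := 3) hpr hlt idx h1 (by omega) (h2 x hx) (h2 y hy)
      rwa [pr_three, Finset.prod_pair (by norm_num)] at this
    intro x hx y hy hne
    rcases lt_or_gt_of_ne hne with h | h
    · exact (key x hx y hy h).trans (le_max_right _ _)
    · rw [min_comm (part x 3 2), min_comm (part x 3 3)]
      exact (key y hy x hx h).trans (le_max_left _ _)
  have hpos : ∀ x ∈ s, 0 < x := by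
    intro x hx
    have hx' := mem_filter.1 (hs hx)
    omega
  have hI : ∀ x ∈ s, M ≤ x ∧ x ≤ N := fun x hx => mem_Icc.1 (mem_filter.1 (hs hx)).1
  have hm : ∀ x ∈ s, x ^ 3 ≤ 27 * (part x 3 2 * part x 3 3) ^ 2 := by
    intro x hx
    have hx' := mem_filter.1 (hs hx)
    have h3 := sq_bound (k := 3) (by omega) hx'.2.2
    rw [small_eq, pr_three, Finset.prod_pair (by norm_num)] at h3
    exact h3
  have := triple_bound (hI a ha).1 (hI b hb).1 (hI c hc).1 (hI a ha).2 (hI b hb).2 (hI c hc).2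
    (hpos a ha) (hpos b hb) (hpos c hc) (hpair a ha b hb hab) (hpair a ha c hc hac)
    (hpair b hb c hc hbc) (part_le (hpos a ha)) (part_le (hpos b hb)) (part_le (hpos c hc))
    (part_le (hpos a ha)) (part_le (hpos b hb)) (part_le (hpos c hc)) (hm a ha) (hm b hb) (hm c hc)
  omega

theorem main3 {M N : ℕ} (h : 3 ^ 9 * N ^ 2 < M ^ 3) : (sol M N 3).card ≤ 18 := by
  have := count (k := 3) (c := 2) (M := M) (N := N) (by norm_num) fun idx h1 s hs h2 =>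
    fibre_two h idx h1 s hs h2
  rw [card_pr_three] at this
  exact this

theorem main5 {M N : ℕ} (h : 5 ^ 10 * N ^ 3 < M ^ 5) : (sol M N 5).card ≤ 125 := by
  have := count (k := 5) (c := 1) (M := M) (N := N) (by norm_num) fun idx h1 s hs h2 =>
    fibre_one (by norm_num) (by rw [card_pr_five]) h idx h1 s hs h2
  rw [card_pr_five] at this
  exact this

theorem main7 {M N : ℕ} (h : 7 ^ 14 * N ^ 3 < M ^ 7) : (sol M N 7).card ≤ 2401 := by
  have := count (k := 7) (c := 1) (M := M) (N := N) (by norm_num) fun idx h1 s hs h2 =>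
    fibre_one (by norm_num) (by rw [card_pr_seven]) h idx h1 s hs h2
  rw [card_pr_seven] at this
  exact this

end Pool.Agent.Lib.MP_331cea_nt
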