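import Mathlib

set_option autoImplicit false

/-!
The small-prime part `U` and the large-prime part `V` of a binomial coefficient, and the gap
principle for the integers `n` with `U > V`.
-/

namespace Pool.Agent.Lib.MP_331cea_nt

open Finset

/-- the part of `C(n, k)` composed of the primes `≤ k` -/
def smallPart (n k : ℕ) : ℕ :=
  ∏ p ∈ (n.choose k).primeFactors with p ≤ k, p ^ (n.choose k).factorization p

/-- the part of `C(n, k)` composed of the primes `> k` -/
def largePart (n k : ℕ) : ℕ :=
  ∏ p ∈ (n.choose k).primeFactors with k < p, p ^ (n.choose k).factorization p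

/-- the `p`-part of `C(n, k)` -/
def part (n k p : ℕ) : ℕ := p ^ (n.choose k).factorization p

/-- the primes up to `k` -/
def pr (k : ℕ) : Finset ℕ := (range (k + 1)).filter Nat.Prime

theorem small_mul_large {n k : ℕ} (hkn : k ≤ n) : smallPart n k * largePart n k = n.choose k := by
  have h1 := Nat.prod_factorization_pow_eq_self (Nat.choose_pos hkn).ne'
  conv_rhs => rw [← h1]
  unfold smallPart largePart
  rw [Finsupp.prod, Nat.support_factorization]
  have h2 := Finset.prod_filter_mul_prod_filter_not (n.choose k).primeFactors (fun p => p ≤ k)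
    (fun p => p ^ (n.choose k).factorization p)
  rw [← h2]
  congr 2
  ext p
  simp

theorem small_eq (n k : ℕ) : smallPart n k = ∏ p ∈ pr k, part n k p := by
  unfold smallPart
  refine Finset.prod_subset ?_ ?_
  · intro p hp
    rw [mem_filter] at hp
    rw [pr, mem_filter, mem_range]
    exact ⟨by omega, Nat.prime_of_mem_primeFactors hp.1⟩
  · intro p hp hp'
    rw [pr, mem_filter, mem_range] at hp
    rw [mem_filter, not_and] at hp'
    have h1 : p ∉ (n.choose k).primeFactors := fun h => hp' h (by omega)
    rw [← Nat.support_factorization, Finsupp.notMem_support_iff] at h1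
    rw [h1, pow_zero]

/-- the `p`-part divides one of the `k` factors `n, n - 1, ..., n - k + 1` -/
theorem exists_index {p n k : ℕ} (hp : p.Prime) (hk : 1 ≤ k) (hkn : k ≤ n) :
    ∃ i < k, part n k p ∣ n - i := by
  unfold part
  set e := (n.choose k).factorization p with he
  rcases Nat.eq_zero_or_pos e with h0 | h0
  · exact ⟨0, hk, by rw [h0, pow_zero]; exact one_dvd _⟩
  have h1 := Nat.factorization_choose hp hkn (Nat.lt_succ_self (Nat.log p n))
  rw [← he] at h1
  obtain ⟨i, hi, hei⟩ : ∃ i ∈ (Finset.Ico 1 (Nat.log p n).succ).filter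
      (fun i => p ^ i ≤ k % p ^ i + (n - k) % p ^ i), e ≤ i := by
    by_contra hcon
    push Not at hcon
    have h2 : (Finset.Ico 1 (Nat.log p n).succ).filter
        (fun i => p ^ i ≤ k % p ^ i + (n - k) % p ^ i) ⊆ Finset.Ico 1 e := by
      intro i hi
      have h3 := hcon i hi
      rw [mem_filter, mem_Ico] at hi
      rw [mem_Ico]
      exact ⟨hi.1.1, h3⟩
    have h3 := Finset.card_le_card h2
    rw [← h1, Nat.card_Ico] at h3
    omega
  rw [mem_filter] at hi
  refine ⟨n % p ^ i, ?_, (pow_dvd_pow p hei).trans (Nat.dvd_sub_mod n)⟩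
  have hq : 0 < p ^ i := pow_pos hp.pos i
  have h2 : n % p ^ i = (k % p ^ i + (n - k) % p ^ i) % p ^ i := by
    rw [← Nat.add_mod]
    congr 1
    omega
  have h3 := Nat.mod_lt k hq
  have h4 := Nat.mod_lt (n - k) hq
  have h5 : (k % p ^ i + (n - k) % p ^ i) % p ^ i = k % p ^ i + (n - k) % p ^ i - p ^ i := by
    rw [Nat.mod_eq_sub_mod hi.2, Nat.mod_eq_of_lt (by omega)]
  have h6 := Nat.mod_le k (p ^ i)
  rw [h2, h5]
  omega

/-- `(n / k) ^ k ≤ C(n, k)` -/
theorem pow_le_choose {n k : ℕ} (hkn : k ≤ n) : n ^ k ≤ k ^ k * n.choose k := by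
  have h1 : n ^ k * k.factorial ≤ k ^ k * n.descFactorial k := by
    rw [← Nat.descFactorial_self, Nat.descFactorial_eq_prod_range, Nat.descFactorial_eq_prod_range]
    calc n ^ k * ∏ i ∈ range k, (k - i) = ∏ i ∈ range k, n * (k - i) := by
          rw [Finset.prod_mul_distrib, Finset.prod_const, card_range]
      _ ≤ ∏ i ∈ range k, k * (n - i) := by
          refine Finset.prod_le_prod' fun i _ => ?_
          rw [Nat.mul_sub, Nat.mul_sub, mul_comm n k]
          exact Nat.sub_le_sub_left (Nat.mul_le_mul_right i hkn) _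
      _ = k ^ k * ∏ i ∈ range k, (n - i) := by
          rw [Finset.prod_mul_distrib, Finset.prod_const, card_range]
  rw [Nat.descFactorial_eq_factorial_mul_choose] at h1
  have h2 : n ^ k * k.factorial ≤ (k ^ k * n.choose k) * k.factorial := by
    calc n ^ k * k.factorial ≤ k ^ k * (k.factorial * n.choose k) := h1
      _ = _ := by ring
  exact Nat.le_of_mul_le_mul_right h2 (Nat.factorial_pos k)

/-- for a solution, `n ^ k ≤ k ^ k U ^ 2` -/
theorem sq_bound {n k : ℕ} (hkn : k ≤ n) (h : largePart n k < smallPart n k) :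
    n ^ k ≤ k ^ k * smallPart n k ^ 2 := by
  refine (pow_le_choose hkn).trans (Nat.mul_le_mul_left _ ?_)
  rw [← small_mul_large hkn, sq]
  exact Nat.mul_le_mul_left _ h.le

theorem part_pos {n k p : ℕ} (hp : p.Prime) : 0 < part n k p := pow_pos hp.pos _

theorem part_le {n k p : ℕ} (hn : 0 < n) : part n k p ≤ n := Nat.pow_factorization_choose_le hn

/-- the smaller `p`-parts divide the difference -/
theorem prod_min_le {n n' k : ℕ} {S : Finset ℕ} (hS : ∀ p ∈ S, p.Prime) (hlt : n < n')
    (idx : ℕ → ℕ) (h1 : ∀ p ∈ S, idx p < k) (hk : k ≤ n)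
    (h2 : ∀ p ∈ S, part n k p ∣ n - idx p)
    (h3 : ∀ p ∈ S, part n' k p ∣ n' - idx p) :
    ∏ p ∈ S, min (part n k p) (part n' k p) ≤ n' := by
  have hdvd : ∏ p ∈ S, min (part n k p) (part n' k p) ∣ n' - n := by
    refine Finset.prod_dvd_of_isRelPrime ?_ ?_
    · intro p hp q hq hpq
      show IsRelPrime (min (part n k p) (part n' k p)) (min (part n k q) (part n' k q))
      have hc : Nat.Coprime p q := (Nat.coprime_primes (hS p hp) (hS q hq)).2 hpq
      rw [← Nat.coprime_iff_isRelPrime]
      rcases min_choice (part n k p) (part n' k p) with e1 | e1 <;>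
      rcases min_choice (part n k q) (part n' k q) with e2 | e2 <;>
      rw [e1, e2] <;> exact Nat.Coprime.pow _ _ hc
    · intro p hp
      have hi := h1 p hp
      have e : n' - n = (n' - idx p) - (n - idx p) := by omega
      have d1 : min (part n k p) (part n' k p) ∣ part n k p := by
        rcases le_total (part n k p) (part n' k p) with h | h
        · rw [min_eq_left h]
        · rw [min_eq_right h]
          exact (Nat.pow_dvd_pow_iff_le_right (hS p hp).one_lt).2
            ((Nat.pow_le_pow_iff_right (hS p hp).one_lt).1 h)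
      have d2 : min (part n k p) (part n' k p) ∣ part n' k p := by
        rcases le_total (part n k p) (part n' k p) with h | h
        · rw [min_eq_left h]
          exact (Nat.pow_dvd_pow_iff_le_right (hS p hp).one_lt).2
            ((Nat.pow_le_pow_iff_right (hS p hp).one_lt).1 h)
        · rw [min_eq_right h]
      rw [e]
      exact Nat.dvd_sub (d2.trans (h3 p hp)) (d1.trans (h2 p hp))
  exact (Nat.le_of_dvd (by omega) hdvd).trans (by omega)

end Pool.Agent.Lib.MP_331cea_nt
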