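import Pool.Agent.Lib.MP_331cea_nt.Count

set_option autoImplicit false

/-!
`k = 3, 5, 7`: members `n` with an integer `2 ^ a * 3 ^ b` among `n, ..., n - k + 1`.
-/

namespace Pool.Agent.Lib.MP_331cea_nt

open Finset

theorem three_pow_le {c e : ℕ} (hc : 1 ≤ c) (h : 3 ^ e ∣ 4 ^ c - 1) : 3 ^ e ≤ 3 * c := by
  have : Fact (Nat.Prime 3) := ⟨Nat.prime_three⟩
  have h1 := padicValNat.pow_sub_pow (p := 3) (x := 4) (y := 1) (by decide) (by norm_num)
    (by norm_num) (by norm_num) (n := c) (by omega)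
  rw [one_pow] at h1
  have h2 : padicValNat 3 (4 - 1) = 1 := by
    rw [show (4 - 1 : ℕ) = 3 by norm_num]
    exact padicValNat_self
  have h3 : 4 ^ c - 1 ≠ 0 := by
    have : 4 ^ 1 ≤ 4 ^ c := Nat.pow_le_pow_right (by norm_num) hc
    omega
  have h4 := (padicValNat_dvd_iff_le h3).1 h
  rw [h1, h2] at h4
  calc 3 ^ e ≤ 3 ^ (1 + padicValNat 3 c) := Nat.pow_le_pow_right (by norm_num) h4
    _ = 3 * 3 ^ padicValNat 3 c := by rw [pow_add, pow_one]
    _ ≤ 3 * c := Nat.mul_le_mul_left _ (Nat.le_of_dvd hc pow_padicValNat_dvd)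

theorem two_pow_le {c e : ℕ} (hc : 1 ≤ c) (h : 2 ^ e ∣ 9 ^ c - 1) : 2 ^ e ≤ 8 * c := by
  have h1 := padicValNat.pow_two_sub_pow (x := 3) (y := 1) (by norm_num)
    (by norm_num) (by norm_num) (n := 2 * c) (by omega) ⟨c, by ring⟩
  rw [one_pow, pow_mul] at h1
  norm_num at h1
  have h2 : padicValNat 2 4 = 2 := by
    rw [show (4 : ℕ) = 2 ^ 2 by norm_num]
    exact padicValNat.prime_pow 2
  have h5 : padicValNat 2 (2 * c) = 1 + padicValNat 2 c := by
    rw [padicValNat.mul (by norm_num) (by omega), padicValNat_self]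
  have h3 : 9 ^ c - 1 ≠ 0 := by
    have : 9 ^ 1 ≤ 9 ^ c := Nat.pow_le_pow_right (by norm_num) hc
    omega
  have h4 := (padicValNat_dvd_iff_le h3).1 h
  have h6 : e ≤ 3 + padicValNat 2 c := by omega
  calc 2 ^ e ≤ 2 ^ (3 + padicValNat 2 c) := Nat.pow_le_pow_right (by norm_num) h6
    _ = 8 * 2 ^ padicValNat 2 c := by rw [pow_add]; norm_num
    _ ≤ 8 * c := Nat.mul_le_mul_left _ (Nat.le_of_dvd hc pow_padicValNat_dvd)

theorem dvd_of_plus {d x : ℕ} (h : d ∣ x + 1) : d ∣ x ^ 2 - 1 := by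
  have e : x ^ 2 - 1 = (x + 1) * (x - 1) := by
    have := Nat.sq_sub_sq x 1
    simpa using this
  rw [e]
  exact h.mul_right _

theorem dvd_of_minus {d x : ℕ} (h : d ∣ x - 1) : d ∣ x ^ 2 - 1 := by
  have e : x ^ 2 - 1 = (x + 1) * (x - 1) := by
    have := Nat.sq_sub_sq x 1
    simpa using this
  rw [e]
  exact h.mul_left _

theorem small_three (n : ℕ) : smallPart n 3 = part n 3 2 * part n 3 3 := by
  rw [small_eq, pr_three, Finset.prod_pair (by norm_num)]

theorem c3 {m y f : ℕ} (hm : 1 ≤ m) (hy : y = 2 ^ m + 1 ∨ y + 1 = 2 ^ m) (h : 3 ^ f ∣ y) :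
    3 ^ f ≤ 3 * m := by
  apply three_pow_le hm
  have e4 : 4 ^ m = (2 ^ m) ^ 2 := by
    rw [← pow_mul, mul_comm, pow_mul]; norm_num
  rw [e4]
  rcases hy with hy | hy
  · apply dvd_of_plus
    rw [← hy]
    exact h
  · apply dvd_of_minus
    have : y = 2 ^ m - 1 := by omega
    rw [← this]
    exact h

theorem c2 {m y e : ℕ} (hm : 1 ≤ m) (hy : y = 3 ^ m + 1 ∨ y + 1 = 3 ^ m) (h : 2 ^ e ∣ y) :
    2 ^ e ≤ 8 * m := by
  apply two_pow_le hm
  have e9 : 9 ^ m = (3 ^ m) ^ 2 := by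
    rw [← pow_mul, mul_comm, pow_mul]; norm_num
  rw [e9]
  rcases hy with hy | hy
  · apply dvd_of_plus
    rw [← hy]
    exact h
  · apply dvd_of_minus
    have : y = 3 ^ m - 1 := by omega
    rw [← this]
    exact h

theorem cancel22 {e z : ℕ} (h : 2 ^ (e + 1) ∣ 2 * z) : 2 ^ e ∣ z := by
  rw [pow_succ, mul_comm] at h
  exact Nat.dvd_of_mul_dvd_mul_left (by norm_num) h

theorem cancel23 {e z : ℕ} (h : 2 ^ e ∣ 3 * z) : 2 ^ e ∣ z :=
  Nat.Coprime.dvd_of_dvd_mul_left (Nat.Coprime.pow_left e (by norm_num)) h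

theorem cancel33 {e z : ℕ} (h : 3 ^ (e + 1) ∣ 3 * z) : 3 ^ e ∣ z := by
  rw [pow_succ, mul_comm] at h
  exact Nat.dvd_of_mul_dvd_mul_left (by norm_num) h

theorem cancel32 {e z : ℕ} (h : 3 ^ e ∣ 2 * z) : 3 ^ e ∣ z :=
  Nat.Coprime.dvd_of_dvd_mul_left (Nat.Coprime.pow_left e (by norm_num)) h

theorem pow_mod_eight (b : ℕ) : 3 ^ b % 8 = 1 ∨ 3 ^ b % 8 = 3 := by
  induction b with
  | zero => left; rfl
  | succ b ih =>
    rw [pow_succ]
    omega

theorem ctrl_two {a b t y e : ℕ} (ha : a ≤ 2) (hb : 2 ≤ b) (ht : 1 ≤ t) (ht' : t ≤ 6)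
    (h5 : 1 ≤ a ∨ t ≠ 5 ∨ y + t = 2 ^ a * 3 ^ b) (hy : y = 2 ^ a * 3 ^ b + t ∨ y + t = 2 ^ a * 3 ^ b)
    (hd : 2 ^ e ∣ y) : 2 ^ e ≤ 32 * b := by
  rcases Nat.lt_or_ge e 4 with he | he
  · calc 2 ^ e ≤ 2 ^ 3 := Nat.pow_le_pow_right (by norm_num) (by omega)
      _ ≤ 32 * b := by omega
  have h16 : 16 ∣ y := by
    have : 2 ^ 4 ∣ y := (pow_dvd_pow 2 he).trans hd
    simpa using this
  obtain ⟨b', rfl⟩ : ∃ b', b = b' + 1 := ⟨b - 1, by omega⟩
  obtain ⟨e', rfl⟩ : ∃ e', e = e' + 1 + 1 := ⟨e - 2, by omega⟩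
  have hX : 3 ^ (b' + 1) = 3 * 3 ^ b' := by rw [pow_succ, mul_comm]
  have hu : ¬ 2 ∣ 3 ^ b' := fun h1 => by
    have := Nat.prime_two.dvd_of_dvd_pow h1
    omega
  have hu1 : 1 ≤ 3 ^ b' := Nat.one_le_pow _ _ (by norm_num)
  have hu8 : 3 ^ b' % 8 = 1 ∨ 3 ^ b' % 8 = 3 := pow_mod_eight b'
  have key : ∀ c, (y = c * (3 ^ (b' + 1)) + c ∨ y + c = c * (3 ^ (b' + 1)) ∨
      y = 3 * c * 3 ^ b' + 3 * c ∨ y + 3 * c = 3 * c * 3 ^ b') →
      ∃ z, (y = c * z ∨ y = 3 * (c * z)) ∧ ∃ m, 1 ≤ m ∧ m ≤ b' + 1 ∧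
        (z = 3 ^ m + 1 ∨ z + 1 = 3 ^ m) := by
    intro c hc
    rcases hc with hc | hc | hc | hc
    · exact ⟨3 ^ (b' + 1) + 1, Or.inl (by rw [hc]; ring), b' + 1, by omega, le_refl _, Or.inl rfl⟩
    · refine ⟨3 ^ (b' + 1) - 1, Or.inl ?_, b' + 1, by omega, le_refl _, Or.inr (by omega)⟩
      rw [Nat.mul_sub, mul_one]
      omega
    · exact ⟨3 ^ b' + 1, Or.inr (by rw [hc]; ring), b', by omega, by omega, Or.inl rfl⟩
    · refine ⟨3 ^ b' - 1, Or.inr ?_, b', by omega, by omega, Or.inr (by omega)⟩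
      rw [Nat.mul_sub, Nat.mul_sub, mul_one, ← mul_assoc]
      omega
  have fin : ∀ s, s ≤ 2 → (y = 2 ^ s * (3 ^ (b' + 1)) + 2 ^ s ∨ y + 2 ^ s = 2 ^ s * (3 ^ (b' + 1)) ∨
      y = 3 * 2 ^ s * 3 ^ b' + 3 * 2 ^ s ∨ y + 3 * 2 ^ s = 3 * 2 ^ s * 3 ^ b') →
      2 ^ (e' + 1 + 1) ≤ 32 * (b' + 1) := by
    intro s hs hc
    obtain ⟨z, hz, m, hm, hm', hzm⟩ := key _ hc
    have hz' : 2 ^ (e' + 1 + 1) ∣ 2 ^ s * z := by
      rcases hz with hz | hz
      · rw [← hz]; exact hd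
      · apply cancel23; rw [← hz]; exact hd
    interval_cases s
    · exact (c2 hm hzm (by simpa using hz')).trans (by omega)
    · have h1 := c2 hm hzm (cancel22 (by simpa using hz'))
      rw [pow_succ]
      omega
    · have h1 := c2 hm hzm (cancel22 (cancel22 (z := 2 * z) (by
        rw [← mul_assoc]; simpa using hz')))
      rw [pow_succ, pow_succ]
      omega
  interval_cases a <;> interval_cases t
  all_goals first
    | (exfalso; omega)
    | (refine fin 0 (by norm_num) ?_; omega)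
    | (refine fin 1 (by norm_num) ?_; omega)
    | (refine fin 2 (by norm_num) ?_; omega)

theorem ctrl_three {a b t y f : ℕ} (ha : 3 ≤ a) (hb : b ≤ 1) (ht : 1 ≤ t) (ht' : t ≤ 6)
    (h5 : 1 ≤ b ∨ t ≠ 5) (hy : y = 2 ^ a * 3 ^ b + t ∨ y + t = 2 ^ a * 3 ^ b)
    (hd : 3 ^ f ∣ y) : 3 ^ f ≤ 9 * a := by
  rcases Nat.lt_or_ge f 3 with he | he
  · calc 3 ^ f ≤ 3 ^ 2 := Nat.pow_le_pow_right (by norm_num) (by omega)
      _ ≤ 9 * a := by omega
  have h27 : 27 ∣ y := by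
    have : 3 ^ 3 ∣ y := (pow_dvd_pow 3 he).trans hd
    simpa using this
  obtain ⟨a', rfl⟩ : ∃ a', a = a' + 1 + 1 := ⟨a - 2, by omega⟩
  obtain ⟨f', rfl⟩ : ∃ f', f = f' + 1 := ⟨f - 1, by omega⟩
  have hX : 2 ^ (a' + 1 + 1) = 2 * 2 ^ (a' + 1) := by rw [pow_succ, mul_comm]
  have hX' : 2 ^ (a' + 1) = 2 * 2 ^ a' := by rw [pow_succ, mul_comm]
  have hu : ¬ 3 ∣ 2 ^ a' := fun h1 => by
    have := Nat.prime_three.dvd_of_dvd_pow h1
    omega
  have hu1 : 2 ≤ 2 ^ a' := by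
    calc 2 = 2 ^ 1 := by norm_num
      _ ≤ 2 ^ a' := Nat.pow_le_pow_right (by norm_num) (by omega)
  have fin1 : ∀ m, 1 ≤ m → m ≤ a' + 1 + 1 → ∀ z, (z = 2 ^ m + 1 ∨ z + 1 = 2 ^ m) →
      (y = z ∨ y = 2 * z ∨ y = 2 * (2 * z)) → 3 ^ (f' + 1) ≤ 9 * (a' + 1 + 1) := by
    intro m hm hm' z hzm hz
    have hz' : 3 ^ (f' + 1) ∣ z := by
      rcases hz with hz | hz | hz
      · rw [← hz]; exact hd
      · apply cancel32; rw [← hz]; exact hd
      · apply cancel32; apply cancel32; rw [← hz]; exact hd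
    exact (c3 hm hzm hz').trans (by omega)
  have fin2 : ∀ m, 1 ≤ m → m ≤ a' + 1 + 1 → ∀ z, (z = 2 ^ m + 1 ∨ z + 1 = 2 ^ m) →
      (y = 3 * z ∨ y = 3 * (2 * z)) → 3 ^ (f' + 1) ≤ 9 * (a' + 1 + 1) := by
    intro m hm hm' z hzm hz
    have hz' : 3 ^ f' ∣ z := by
      rcases hz with hz | hz
      · apply cancel33; rw [← hz]; exact hd
      · apply cancel32; apply cancel33; rw [← hz]; exact hd
    have h1 := c3 hm hzm hz'
    rw [pow_succ]
    omega
  interval_cases b <;> interval_cases t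
  all_goals first
    | (exfalso; omega)
    | (rcases hy with hy | hy
       · exact fin1 (a' + 1 + 1) (by omega) (by omega) (2 ^ (a' + 1 + 1) + 1) (Or.inl rfl) (by omega)
       · exact fin1 (a' + 1 + 1) (by omega) (by omega) (2 ^ (a' + 1 + 1) - 1) (Or.inr (by omega))
           (by omega))
    | (rcases hy with hy | hy
       · exact fin1 (a' + 1) (by omega) (by omega) (2 ^ (a' + 1) + 1) (Or.inl rfl) (by omega)
       · exact fin1 (a' + 1) (by omega) (by omega) (2 ^ (a' + 1) - 1) (Or.inr (by omega))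
           (by omega))
    | (rcases hy with hy | hy
       · exact fin1 a' (by omega) (by omega) (2 ^ a' + 1) (Or.inl rfl) (by omega)
       · exact fin1 a' (by omega) (by omega) (2 ^ a' - 1) (Or.inr (by omega))
           (by omega))
    | (rcases hy with hy | hy
       · exact fin2 (a' + 1 + 1) (by omega) (by omega) (2 ^ (a' + 1 + 1) + 1) (Or.inl rfl) (by omega)
       · exact fin2 (a' + 1 + 1) (by omega) (by omega) (2 ^ (a' + 1 + 1) - 1) (Or.inr (by omega))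
           (by omega))
    | (rcases hy with hy | hy
       · exact fin2 (a' + 1) (by omega) (by omega) (2 ^ (a' + 1) + 1) (Or.inl rfl) (by omega)
       · exact fin2 (a' + 1) (by omega) (by omega) (2 ^ (a' + 1) - 1) (Or.inr (by omega))
           (by omega))

theorem two_bound {n k i a b : ℕ} (hk : k ≤ 7) (hkn : k ≤ n) (hi : i < k) (ha : 3 ≤ a)
    (hn : n = 2 ^ a * 3 ^ b + i) : part n k 2 ≤ 2 ^ a := by
  obtain ⟨j, hj, hd⟩ := exists_index (p := 2) (n := n) (k := k) Nat.prime_two (by omega) hkn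
  unfold part at hd ⊢
  set e := (n.choose k).factorization 2
  have h8 : 8 ∣ 2 ^ a * 3 ^ b := by
    have : 2 ^ 3 ∣ 2 ^ a := pow_dvd_pow 2 ha
    exact Dvd.dvd.mul_right this _
  by_cases hij : i = j
  · have h5 : n - j = 2 ^ a * 3 ^ b := by omega
    rw [h5] at hd
    exact Nat.le_of_dvd (by positivity)
      (Nat.Coprime.dvd_of_dvd_mul_right (Nat.Coprime.pow _ _ (by norm_num)) hd)
  · rcases Nat.lt_or_ge e 3 with he | he
    · exact Nat.pow_le_pow_right (by norm_num) (by omega)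
    · have h5 : 2 ^ 3 ∣ n - j := (pow_dvd_pow 2 he).trans hd
      omega

theorem three_bound {n k i a b : ℕ} (hk : k ≤ 7) (hkn : k ≤ n) (hi : i < k) (hb : 2 ≤ b)
    (hn : n = 2 ^ a * 3 ^ b + i) : part n k 3 ≤ 3 ^ b := by
  obtain ⟨j, hj, hd⟩ := exists_index (p := 3) (n := n) (k := k) Nat.prime_three (by omega) hkn
  unfold part at hd ⊢
  set e := (n.choose k).factorization 3
  have h8 : 9 ∣ 2 ^ a * 3 ^ b := by
    have : 3 ^ 2 ∣ 3 ^ b := pow_dvd_pow 3 hb
    exact Dvd.dvd.mul_left (by simpa using this) _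
  by_cases hij : i = j
  · have h5 : n - j = 2 ^ a * 3 ^ b := by omega
    rw [h5] at hd
    exact Nat.le_of_dvd (by positivity)
      (Nat.Coprime.dvd_of_dvd_mul_left (Nat.Coprime.pow _ _ (by norm_num)) hd)
  · rcases Nat.lt_or_ge e 2 with he | he
    · exact Nat.pow_le_pow_right (by norm_num) (by omega)
    · have h5 : 3 ^ 2 ∣ n - j := (pow_dvd_pow 3 he).trans hd
      omega

theorem two_bound' {n k i a b : ℕ} (hk : k ≤ 7) (hkn : k ≤ n) (hi : i < k) (ha : a ≤ 2)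
    (hb : 2 ≤ b) (h5 : k ≤ 5 ∨ 1 ≤ a ∨ i ≤ 4) (hn : n = 2 ^ a * 3 ^ b + i) : part n k 2 ≤ 32 * b := by
  obtain ⟨j, hj, hd⟩ := exists_index (p := 2) (n := n) (k := k) Nat.prime_two (by omega) hkn
  unfold part at hd ⊢
  set e := (n.choose k).factorization 2
  rcases lt_trichotomy i j with hij | hij | hij
  · exact ctrl_two (t := j - i) (y := n - j) ha hb (by omega) (by omega)
      (Or.inr (Or.inr (by omega))) (Or.inr (by omega)) hd
  · have h5 : n - j = 2 ^ a * 3 ^ b := by omega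
    rw [h5] at hd
    have h6 : 2 ^ e ≤ 2 ^ a := Nat.le_of_dvd (by positivity)
      (Nat.Coprime.dvd_of_dvd_mul_right (Nat.Coprime.pow _ _ (by norm_num)) hd)
    have h7 : 2 ^ a ≤ 2 ^ 2 := Nat.pow_le_pow_right (by norm_num) ha
    omega
  · exact ctrl_two (t := i - j) (y := n - j) ha hb (by omega) (by omega) (by omega)
      (Or.inl (by omega)) hd

theorem three_bound' {n k i a b : ℕ} (hk : k ≤ 7) (hkn : k ≤ n) (hi : i < k) (ha : 3 ≤ a)
    (hb : b ≤ 1) (h5 : k ≤ 5 ∨ 1 ≤ b ∨ (2 ≤ i ∧ i ≤ 4)) (hn : n = 2 ^ a * 3 ^ b + i) : part n k 3 ≤ 9 * a := by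
  obtain ⟨j, hj, hd⟩ := exists_index (p := 3) (n := n) (k := k) Nat.prime_three (by omega) hkn
  unfold part at hd ⊢
  set e := (n.choose k).factorization 3
  have hpos : 8 ≤ 2 ^ a * 3 ^ b := by
    calc 8 = 2 ^ 3 * 1 := by norm_num
      _ ≤ 2 ^ a * 3 ^ b := Nat.mul_le_mul (Nat.pow_le_pow_right (by norm_num) ha)
        (Nat.one_le_pow _ _ (by norm_num))
  rcases lt_trichotomy i j with hij | hij | hij
  · exact ctrl_three (t := j - i) (y := n - j) ha hb (by omega) (by omega) (by omega)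
      (Or.inr (by omega)) hd
  · have h5 : n - j = 2 ^ a * 3 ^ b := by omega
    rw [h5] at hd
    have h6 : 3 ^ e ≤ 3 ^ b := Nat.le_of_dvd (by positivity)
      (Nat.Coprime.dvd_of_dvd_mul_left (Nat.Coprime.pow _ _ (by norm_num)) hd)
    have h7 : 3 ^ b ≤ 3 ^ 1 := Nat.pow_le_pow_right (by norm_num) hb
    omega
  · exact ctrl_three (t := i - j) (y := n - j) ha hb (by omega) (by omega) (by omega)
      (Or.inl (by omega)) hd

theorem bound_of' {n k r t : ℕ} (hk : k = 2 * r + 1) (hkn : k ≤ n)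
    (h : largePart n k < smallPart n k) (ht : smallPart n k ≤ n ^ r * t) :
    n ≤ k ^ k * t ^ 2 := by
  have h1 := sq_bound (k := k) hkn h
  have h0 : 0 < n := by omega
  have h2 : n ^ (2 * r) * n ≤ n ^ (2 * r) * (k ^ k * t ^ 2) := by
    calc n ^ (2 * r) * n = n ^ k := by rw [hk, pow_succ]
      _ ≤ k ^ k * smallPart n k ^ 2 := h1
      _ ≤ k ^ k * (n ^ r * t) ^ 2 := Nat.mul_le_mul_left _ (Nat.pow_le_pow_left ht 2)
      _ = n ^ (2 * r) * (k ^ k * t ^ 2) := by rw [mul_comm 2 r, pow_mul]; ring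
  exact Nat.le_of_mul_le_mul_left h2 (by positivity)

theorem pr_five : pr 5 = {2, 3, 5} := by decide

theorem pr_seven : pr 7 = {2, 3, 5, 7} := by decide

theorem small_five (n : ℕ) : smallPart n 5 = part n 5 2 * part n 5 3 * part n 5 5 := by
  rw [small_eq, pr_five, Finset.prod_insert (by decide), Finset.prod_pair (by norm_num)]
  ring

theorem small_seven (n : ℕ) :
    smallPart n 7 = part n 7 2 * part n 7 3 * part n 7 5 * part n 7 7 := by
  rw [small_eq, pr_seven, Finset.prod_insert (by decide), Finset.prod_insert (by decide),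
    Finset.prod_pair (by norm_num)]
  ring

/-- the bound for `n` from a bound for the product of the `2`-part and the `3`-part -/
theorem bound_k {n k t : ℕ} (hk : k = 3 ∨ k = 5 ∨ k = 7) (hkn : k ≤ n)
    (h : largePart n k < smallPart n k) (ht : part n k 2 * part n k 3 ≤ n * t) :
    n ≤ 7 ^ 7 * t ^ 2 := by
  rcases hk with rfl | rfl | rfl
  · have := bound_of' (k := 3) (r := 1) (t := t) (by norm_num) hkn h
      (by rw [small_three, pow_one]; exact ht)
    exact this.trans (Nat.mul_le_mul_right _ (by norm_num))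
  · have := bound_of' (k := 5) (r := 2) (t := t) (by norm_num) hkn h (by
      rw [small_five]
      calc part n 5 2 * part n 5 3 * part n 5 5 ≤ (n * t) * n :=
            Nat.mul_le_mul ht (part_le (by omega))
        _ = n ^ 2 * t := by ring)
    exact this.trans (Nat.mul_le_mul_right _ (by norm_num))
  · exact bound_of' (k := 7) (r := 3) (t := t) (by norm_num) hkn h (by
      rw [small_seven]
      calc part n 7 2 * part n 7 3 * part n 7 5 * part n 7 7 ≤ (n * t) * n * n :=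
            Nat.mul_le_mul (Nat.mul_le_mul ht (part_le (by omega))) (part_le (by omega))
        _ = n ^ 3 * t := by ring)

theorem exp_b {b : ℕ} (h : 26 ≤ b) : 7 ^ 7 * (32 * b) ^ 2 < 3 ^ b := by
  induction b, h using Nat.le_induction with
  | base => norm_num
  | succ b hb ih =>
    have e3 : (32 * b) ^ 2 = 1024 * (b * b) := by ring
    have e1 : (32 * (b + 1)) ^ 2 = 1024 * (b * b) + 2048 * b + 1024 := by ring
    have e2 : 26 * b ≤ b * b := Nat.mul_le_mul_right b hb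
    have e4 : 3 ^ (b + 1) = 3 ^ b * 3 := pow_succ 3 b
    rw [e3] at ih
    rw [e1, e4]
    omega

theorem exp_a {a : ℕ} (h : 40 ≤ a) : 7 ^ 7 * (9 * a) ^ 2 < 2 ^ a := by
  induction a, h using Nat.le_induction with
  | base => norm_num
  | succ a ha ih =>
    have e3 : (9 * a) ^ 2 = 81 * (a * a) := by ring
    have e1 : (9 * (a + 1)) ^ 2 = 81 * (a * a) + 162 * a + 81 := by ring
    have e2 : 40 * a ≤ a * a := Nat.mul_le_mul_right a ha
    have e4 : 2 ^ (a + 1) = 2 ^ a * 2 := pow_succ 2 a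
    rw [e3] at ih
    rw [e1, e4]
    omega

/-- the exponents are small -/
theorem box {n k i a b : ℕ} (hk : k = 3 ∨ k = 5 ∨ k = 7) (hkn : k ≤ n) (hi : i < k)
    (h5 : k ≤ 5 ∨ (1 ≤ a ∧ 1 ≤ b) ∨ (a = 0 ∧ i ≤ 4) ∨ (b = 0 ∧ 2 ≤ i ∧ i ≤ 4)) (hn : n = 2 ^ a * 3 ^ b + i)
    (h : largePart n k < smallPart n k) : a < 40 ∧ b < 26 := by
  have hk7 : k ≤ 7 := by omega
  have hxa : 2 ^ a ≤ n := by
    have : 2 ^ a * 1 ≤ 2 ^ a * 3 ^ b := Nat.mul_le_mul_left _ (Nat.one_le_pow _ _ (by norm_num))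
    omega
  have hxb : 3 ^ b ≤ n := by
    have : 1 * 3 ^ b ≤ 2 ^ a * 3 ^ b := Nat.mul_le_mul_right _ (Nat.one_le_pow _ _ (by norm_num))
    omega
  have conv : (n ≤ 7 ^ 7 → a < 40 ∧ b < 26) := by
    intro h1
    constructor
    · by_contra hcon
      have : 2 ^ 40 ≤ 2 ^ a := Nat.pow_le_pow_right (by norm_num) (by omega)
      omega
    · by_contra hcon
      have : 3 ^ 26 ≤ 3 ^ b := Nat.pow_le_pow_right (by norm_num) (by omega)
      omega
  rcases Nat.lt_or_ge a 3 with ha | ha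
  · refine ⟨by omega, ?_⟩
    rcases Nat.lt_or_ge b 2 with hb | hb
    · omega
    by_contra hcon
    have h1 := bound_k (t := 32 * b) hk hkn h (by
      rw [mul_comm n]
      exact Nat.mul_le_mul (two_bound' hk7 hkn hi (by omega) hb (by omega) hn)
        (part_le (by omega)))
    have := exp_b (b := b) (by omega)
    omega
  · rcases Nat.lt_or_ge b 2 with hb | hb
    · refine ⟨?_, by omega⟩
      by_contra hcon
      have h1 := bound_k (t := 9 * a) hk hkn h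
        (Nat.mul_le_mul (part_le (by omega))
          (three_bound' hk7 hkn hi ha (by omega) (by omega) hn))
      have := exp_a (a := a) (by omega)
      omega
    · have h1 := bound_k (t := 1) hk hkn h (by
        calc part n k 2 * part n k 3 ≤ 2 ^ a * 3 ^ b :=
              Nat.mul_le_mul (two_bound hk7 hkn hi ha hn) (three_bound hk7 hkn hi hb hn)
          _ ≤ n * 1 := by omega)
      exact conv (by omega)

theorem seven_pow_le {c e : ℕ} (hc : 1 ≤ c) (h : 7 ^ e ∣ 64 ^ c - 1) : 7 ^ e ≤ 7 * c := by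
  have : Fact (Nat.Prime 7) := ⟨by norm_num⟩
  have h1 := padicValNat.pow_sub_pow (p := 7) (x := 64) (y := 1) (by decide) (by norm_num)
    (by norm_num) (by norm_num) (n := c) (by omega)
  rw [one_pow] at h1
  have h2 : padicValNat 7 (64 - 1) = 1 := by
    rw [show (64 - 1 : ℕ) = 7 * 9 by norm_num, padicValNat.mul (by norm_num) (by norm_num),
      padicValNat_self, padicValNat.eq_zero_of_not_dvd (by norm_num)]
  have h3 : 64 ^ c - 1 ≠ 0 := by
    have : 64 ^ 1 ≤ 64 ^ c := Nat.pow_le_pow_right (by norm_num) hc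
    omega
  have h4 := (padicValNat_dvd_iff_le h3).1 h
  rw [h1, h2] at h4
  calc 7 ^ e ≤ 7 ^ (1 + padicValNat 7 c) := Nat.pow_le_pow_right (by norm_num) h4
    _ = 7 * 7 ^ padicValNat 7 c := by rw [pow_add, pow_one]
    _ ≤ 7 * c := Nat.mul_le_mul_left _ (Nat.le_of_dvd hc pow_padicValNat_dvd)

theorem five_pow_le {c e : ℕ} (hc : 1 ≤ c) (h : 5 ^ e ∣ 16 ^ c - 1) : 5 ^ e ≤ 5 * c := by
  have : Fact (Nat.Prime 5) := ⟨Nat.prime_five⟩
  have h1 := padicValNat.pow_sub_pow (p := 5) (x := 16) (y := 1) (by decide) (by norm_num)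
    (by norm_num) (by norm_num) (n := c) (by omega)
  rw [one_pow] at h1
  have h2 : padicValNat 5 (16 - 1) = 1 := by
    rw [show (16 - 1 : ℕ) = 5 * 3 by norm_num, padicValNat.mul (by norm_num) (by norm_num),
      padicValNat_self, padicValNat.eq_zero_of_not_dvd (by norm_num)]
  have h3 : 16 ^ c - 1 ≠ 0 := by
    have : 16 ^ 1 ≤ 16 ^ c := Nat.pow_le_pow_right (by norm_num) hc
    omega
  have h4 := (padicValNat_dvd_iff_le h3).1 h
  rw [h1, h2] at h4
  calc 5 ^ e ≤ 5 ^ (1 + padicValNat 5 c) := Nat.pow_le_pow_right (by norm_num) h4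
    _ = 5 * 5 ^ padicValNat 5 c := by rw [pow_add, pow_one]
    _ ≤ 5 * c := Nat.mul_le_mul_left _ (Nat.le_of_dvd hc pow_padicValNat_dvd)

theorem dvd_four {d m y : ℕ} (hy : y = 2 ^ m + 1 ∨ y + 1 = 2 ^ m) (h : d ∣ y) : d ∣ 4 ^ m - 1 := by
  have e4 : 4 ^ m = (2 ^ m) ^ 2 := by
    rw [← pow_mul, mul_comm, pow_mul]; norm_num
  rw [e4]
  rcases hy with hy | hy
  · apply dvd_of_plus
    rw [← hy]
    exact h
  · apply dvd_of_minus
    have : y = 2 ^ m - 1 := by omega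
    rw [← this]
    exact h

theorem c7 {m y f : ℕ} (hm : 1 ≤ m) (hy : y = 2 ^ m + 1 ∨ y + 1 = 2 ^ m) (h : 7 ^ f ∣ y) :
    7 ^ f ≤ 7 * m := by
  apply seven_pow_le hm
  have e : 64 ^ m = (4 ^ m) ^ 3 := by
    rw [← pow_mul, mul_comm, pow_mul]; norm_num
  have h1 : 4 ^ m - 1 ∣ (4 ^ m) ^ 3 - 1 := by
    have := Nat.sub_dvd_pow_sub_pow (4 ^ m) 1 3
    rwa [one_pow] at this
  rw [e]
  exact (dvd_four hy h).trans h1

theorem c5 {m y f : ℕ} (hm : 1 ≤ m) (hy : y = 2 ^ m + 1 ∨ y + 1 = 2 ^ m) (h : 5 ^ f ∣ y) :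
    5 ^ f ≤ 5 * m := by
  apply five_pow_le hm
  have e : 16 ^ m = (4 ^ m) ^ 2 := by
    rw [← pow_mul, mul_comm, pow_mul]; norm_num
  have h1 : 4 ^ m - 1 ∣ (4 ^ m) ^ 2 - 1 := by
    have := Nat.sub_dvd_pow_sub_pow (4 ^ m) 1 2
    rwa [one_pow] at this
  rw [e]
  exact (dvd_four hy h).trans h1

theorem pow_mod_seven (a : ℕ) : 2 ^ a % 7 = 1 ∨ 2 ^ a % 7 = 2 ∨ 2 ^ a % 7 = 4 := by
  induction a with
  | zero => left; rfl
  | succ a ih =>
    rw [pow_succ]
    omega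

theorem strip {p a t y f B : ℕ} (hp : Nat.Coprime p 2) (ha : 3 ≤ a)
    (hc : ∀ m z, 1 ≤ m → (z = 2 ^ m + 1 ∨ z + 1 = 2 ^ m) → p ^ f ∣ z → p ^ f ≤ B * m)
    (ht : t = 1 ∨ t = 2 ∨ t = 4) (hy : y = 2 ^ a + t ∨ y + t = 2 ^ a)
    (hd : p ^ f ∣ y) : p ^ f ≤ B * a := by
  obtain ⟨a', rfl⟩ : ∃ a', a = a' + 1 + 1 := ⟨a - 2, by omega⟩
  have hX : 2 ^ (a' + 1 + 1) = 2 * 2 ^ (a' + 1) := by rw [pow_succ, mul_comm]
  have hX' : 2 ^ (a' + 1) = 2 * 2 ^ a' := by rw [pow_succ, mul_comm]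
  have hu1 : 2 ≤ 2 ^ a' := by
    calc 2 = 2 ^ 1 := by norm_num
      _ ≤ 2 ^ a' := Nat.pow_le_pow_right (by norm_num) (by omega)
  have hcan : ∀ z, p ^ f ∣ 2 * z → p ^ f ∣ z := fun z hz =>
    Nat.Coprime.dvd_of_dvd_mul_left (Nat.Coprime.pow_left f hp) hz
  have fin1 : ∀ m, 1 ≤ m → m ≤ a' + 1 + 1 → ∀ z, (z = 2 ^ m + 1 ∨ z + 1 = 2 ^ m) →
      (y = z ∨ y = 2 * z ∨ y = 2 * (2 * z)) → p ^ f ≤ B * (a' + 1 + 1) := by
    intro m hm hm' z hzm hz
    have hz' : p ^ f ∣ z := by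
      rcases hz with hz | hz | hz
      · rw [← hz]; exact hd
      · apply hcan; rw [← hz]; exact hd
      · apply hcan; apply hcan; rw [← hz]; exact hd
    exact (hc m z hm hzm hz').trans (Nat.mul_le_mul_left _ hm')
  rcases ht with rfl | rfl | rfl
  · rcases hy with hy | hy
    · exact fin1 (a' + 1 + 1) (by omega) (by omega) (2 ^ (a' + 1 + 1) + 1) (Or.inl rfl) (by omega)
    · exact fin1 (a' + 1 + 1) (by omega) (by omega) (2 ^ (a' + 1 + 1) - 1) (Or.inr (by omega))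
        (by omega)
  · rcases hy with hy | hy
    · exact fin1 (a' + 1) (by omega) (by omega) (2 ^ (a' + 1) + 1) (Or.inl rfl) (by omega)
    · exact fin1 (a' + 1) (by omega) (by omega) (2 ^ (a' + 1) - 1) (Or.inr (by omega))
        (by omega)
  · rcases hy with hy | hy
    · exact fin1 a' (by omega) (by omega) (2 ^ a' + 1) (Or.inl rfl) (by omega)
    · exact fin1 a' (by omega) (by omega) (2 ^ a' - 1) (Or.inr (by omega))
        (by omega)

theorem ctrl_seven {a t y f : ℕ} (ha : 3 ≤ a) (ht : 1 ≤ t) (ht' : t ≤ 6)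
    (h5 : y + t = 2 ^ a ∨ (t ≠ 3 ∧ t ≠ 5 ∧ t ≠ 6))
    (hy : y = 2 ^ a + t ∨ y + t = 2 ^ a) (hd : 7 ^ f ∣ y) : 7 ^ f ≤ 7 * a := by
  rcases Nat.eq_zero_or_pos f with hf | hf
  · rw [hf]; omega
  have h7 : 7 ∣ y := (dvd_pow_self 7 (by omega)).trans hd
  have hm := pow_mod_seven a
  have htt : t = 1 ∨ t = 2 ∨ t = 4 := by
    interval_cases t <;> omega
  exact strip (p := 7) (by norm_num) ha (fun m z h1 h2 h3 => c7 h1 h2 h3) htt hy hd

theorem ctrl_five {a t y f : ℕ} (ha : 3 ≤ a) (ht : 1 ≤ t) (ht' : t ≤ 6)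
    (h5 : t ≠ 3 ∧ t ≠ 6)
    (hy : y = 2 ^ a + t ∨ y + t = 2 ^ a) (hd : 5 ^ f ∣ y) : 5 ^ f ≤ 5 * a := by
  rcases Nat.eq_zero_or_pos f with hf | hf
  · rw [hf]; omega
  have h7 : 5 ∣ y := (dvd_pow_self 5 (by omega)).trans hd
  have hm : ¬ 5 ∣ 2 ^ a := fun h1 => by
    have := Nat.prime_five.dvd_of_dvd_pow h1
    omega
  have htt : t = 1 ∨ t = 2 ∨ t = 4 := by
    interval_cases t <;> omega
  exact strip (p := 5) (by norm_num) ha (fun m z h1 h2 h3 => c5 h1 h2 h3) htt hy hd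

theorem coprime_part {p n k a : ℕ} (hp : Nat.Coprime p 2) (h : part n k p ∣ 2 ^ a) :
    part n k p = 1 := by
  unfold part at h ⊢
  exact Nat.eq_one_of_dvd_one (by
    have := Nat.Coprime.dvd_of_dvd_mul_left (Nat.Coprime.pow _ a hp)
      (by rw [mul_one]; exact h : p ^ (n.choose k).factorization p ∣ 2 ^ a * 1)
    exact this)

theorem mul_part_le {n j p q : ℕ} (hpq : Nat.Coprime p q) (hjn : j < n)
    (h1 : part n 7 p ∣ n - j) (h2 : part n 7 q ∣ n - j) : part n 7 p * part n 7 q ≤ n := by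
  have h3 : Nat.Coprime (part n 7 p) (part n 7 q) := Nat.Coprime.pow _ _ hpq
  exact (Nat.le_of_dvd (by omega) (h3.mul_dvd_of_dvd_of_dvd h1 h2)).trans (by omega)

/-- pure powers of `2`, `k = 7` -/
theorem pure_two {n i a : ℕ} (hn : 14 ≤ n) (hi : i ≤ 5) (ha : 3 ≤ a) (hna : n = 2 ^ a + i) :
    smallPart n 7 ≤ n ^ 3 * (9 * a) := by
  have p2 : part n 7 2 ≤ n := part_le (by omega)
  have p3 : part n 7 3 ≤ n := part_le (by omega)
  have p5 : part n 7 5 ≤ n := part_le (by omega)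
  have p7 : part n 7 7 ≤ n := part_le (by omega)
  obtain ⟨j3, hj3, hd3⟩ := exists_index (p := 3) (n := n) (k := 7) Nat.prime_three (by norm_num)
    (by omega)
  obtain ⟨j5, hj5, hd5⟩ := exists_index (p := 5) (n := n) (k := 7) Nat.prime_five (by norm_num)
    (by omega)
  obtain ⟨j7, hj7, hd7⟩ := exists_index (p := 7) (n := n) (k := 7) (by norm_num) (by norm_num)
    (by omega)
  rw [small_seven]
  -- the three ways to save a factor
  have w3 : part n 7 3 ≤ 9 * a →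
      part n 7 2 * part n 7 3 * part n 7 5 * part n 7 7 ≤ n ^ 3 * (9 * a) := fun h => by
    calc part n 7 2 * part n 7 3 * part n 7 5 * part n 7 7 ≤ n * (9 * a) * n * n :=
          Nat.mul_le_mul (Nat.mul_le_mul (Nat.mul_le_mul p2 h) p5) p7
      _ = n ^ 3 * (9 * a) := by ring
  have w5 : part n 7 5 ≤ 9 * a →
      part n 7 2 * part n 7 3 * part n 7 5 * part n 7 7 ≤ n ^ 3 * (9 * a) := fun h => by
    calc part n 7 2 * part n 7 3 * part n 7 5 * part n 7 7 ≤ n * n * (9 * a) * n :=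
          Nat.mul_le_mul (Nat.mul_le_mul (Nat.mul_le_mul p2 p3) h) p7
      _ = n ^ 3 * (9 * a) := by ring
  have w7 : part n 7 7 ≤ 9 * a →
      part n 7 2 * part n 7 3 * part n 7 5 * part n 7 7 ≤ n ^ 3 * (9 * a) := fun h => by
    calc part n 7 2 * part n 7 3 * part n 7 5 * part n 7 7 ≤ n * n * n * (9 * a) :=
          Nat.mul_le_mul (Nat.mul_le_mul (Nat.mul_le_mul p2 p3) p5) h
      _ = n ^ 3 * (9 * a) := by ring
  have one : 1 ≤ 9 * a := by omega
  -- the `7`-part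
  have s7 : (i < 3 ∨ (j7 ≠ i - 3 ∧ j7 ≠ i - 5)) → part n 7 7 ≤ 9 * a := by
    intro h
    rcases lt_trichotomy i j7 with hij | hij | hij
    · have := ctrl_seven (t := j7 - i) (y := n - j7) ha (by omega) (by omega) (Or.inl (by omega))
        (Or.inr (by omega)) hd7
      exact le_trans this (by omega)
    · have h5 : n - j7 = 2 ^ a := by omega
      rw [h5] at hd7
      rw [coprime_part (by norm_num) hd7]
      exact one
    · have := ctrl_seven (t := i - j7) (y := n - j7) ha (by omega) (by omega)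
        (Or.inr (by omega)) (Or.inl (by omega)) hd7
      exact le_trans this (by omega)
  rcases Nat.lt_or_ge i 3 with h3 | h3
  · exact w7 (s7 (Or.inl h3))
  -- the `3`-part
  have s3 : (i ≤ 4 ∨ j3 ≠ 0) → part n 7 3 ≤ 9 * a := by
    intro h
    rcases lt_trichotomy i j3 with hij | hij | hij
    · exact ctrl_three (b := 0) (t := j3 - i) (y := n - j3) ha (by omega) (by omega) (by omega)
        (by omega) (Or.inr (by omega)) hd3
    · have h5 : n - j3 = 2 ^ a := by omega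
      rw [h5] at hd3
      rw [coprime_part (by norm_num) hd3]
      exact one
    · exact ctrl_three (b := 0) (t := i - j3) (y := n - j3) ha (by omega) (by omega) (by omega)
        (by omega) (Or.inl (by omega)) hd3
  rcases Nat.lt_or_ge 4 i with h4 | h4
  swap
  · exact w3 (s3 (Or.inl h4))
  have hi5 : i = 5 := by omega
  subst hi5
  by_cases hj : j3 = 0
  swap
  · exact w3 (s3 (Or.inr hj))
  subst hj
  by_cases h70 : j7 = 0
  · subst h70
    have h1 := mul_part_le (p := 3) (q := 7) (by norm_num) (by omega) hd3 hd7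
    calc part n 7 2 * part n 7 3 * part n 7 5 * part n 7 7
        = part n 7 2 * (part n 7 3 * part n 7 7) * part n 7 5 * 1 := by ring
      _ ≤ n * n * n * (9 * a) := Nat.mul_le_mul (Nat.mul_le_mul (Nat.mul_le_mul p2 h1) p5) one
      _ = n ^ 3 * (9 * a) := by ring
  by_cases h72 : j7 = 2
  swap
  · exact w7 (s7 (Or.inr (by omega)))
  subst h72
  by_cases h52 : j5 = 2
  · subst h52
    have h1 := mul_part_le (p := 5) (q := 7) (by norm_num) (by omega) hd5 hd7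
    calc part n 7 2 * part n 7 3 * part n 7 5 * part n 7 7
        = part n 7 2 * part n 7 3 * (part n 7 5 * part n 7 7) * 1 := by ring
      _ ≤ n * n * n * (9 * a) := Nat.mul_le_mul (Nat.mul_le_mul (Nat.mul_le_mul p2 p3) h1) one
      _ = n ^ 3 * (9 * a) := by ring
  · apply w5
    rcases lt_trichotomy 5 j5 with hij | hij | hij
    · have := ctrl_five (t := j5 - 5) (y := n - j5) ha (by omega) (by omega) (by omega)
        (Or.inr (by omega)) hd5
      exact le_trans this (by omega)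
    · have h5 : n - j5 = 2 ^ a := by omega
      rw [h5] at hd5
      rw [coprime_part (by norm_num) hd5]
      exact one
    · have := ctrl_five (t := 5 - j5) (y := n - j5) ha (by omega) (by omega)
        (by omega) (Or.inl (by omega)) hd5
      exact le_trans this (by omega)

/-- the exponents are small, `k = 7` -/
theorem box_seven {n i a b : ℕ} (hn : 14 ≤ n) (hi : i < 7) (h1 : a = 0 → i ≤ 4)
    (h2 : b = 0 → i ≤ 5) (hab : n = 2 ^ a * 3 ^ b + i)
    (h : largePart n 7 < smallPart n 7) : a < 40 ∧ b < 26 := by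
  by_cases ha : a = 0
  · exact box (k := 7) (by norm_num) (by omega) hi (Or.inr (Or.inr (Or.inl ⟨ha, h1 ha⟩))) hab h
  by_cases hb : b = 0
  · subst hb
    refine ⟨?_, by norm_num⟩
    by_contra hcon
    have hna : n = 2 ^ a + i := by simpa using hab
    have h3 := pure_two hn (h2 rfl) (by omega) hna
    have h4 := bound_of' (k := 7) (r := 3) (t := 9 * a) (by norm_num) (by omega) h h3
    have := exp_a (a := a) (by omega)
    omega
  · exact box (k := 7) (by norm_num) (by omega) hi (Or.inr (Or.inl ⟨by omega, by omega⟩)) hab h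

/-- the tests used in the box -/
def C3 (n : ℕ) : ℕ := n * (n - 1) * (n - 2) / 6
def C5 (n : ℕ) : ℕ := n * (n - 1) * (n - 2) * (n - 3) * (n - 4) / 120
def C7 (n : ℕ) : ℕ := n * (n - 1) * (n - 2) * (n - 3) * (n - 4) * (n - 5) * (n - 6) / 5040

def g (C p : ℕ) : ℕ := Nat.gcd C (p ^ 100)

def T3 (n : ℕ) : Bool := decide ((g (C3 n) 2 * g (C3 n) 3) ^ 2 ≤ C3 n)
def T5 (n : ℕ) : Bool := decide ((g (C5 n) 2 * g (C5 n) 3 * g (C5 n) 5) ^ 2 ≤ C5 n)
def T7 (n : ℕ) : Bool :=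
  decide ((g (C7 n) 2 * g (C7 n) 3 * g (C7 n) 5 * g (C7 n) 7) ^ 2 ≤ C7 n)

theorem C3_eq (n : ℕ) : C3 n = n.choose 3 := by
  rw [Nat.choose_eq_descFactorial_div_factorial]
  unfold C3
  congr 1
  simp [Nat.descFactorial]
  ring

theorem C5_eq (n : ℕ) : C5 n = n.choose 5 := by
  rw [Nat.choose_eq_descFactorial_div_factorial]
  unfold C5
  congr 1
  simp [Nat.descFactorial]
  ring

theorem C7_eq (n : ℕ) : C7 n = n.choose 7 := by
  rw [Nat.choose_eq_descFactorial_div_factorial]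
  unfold C7
  congr 1
  simp [Nat.descFactorial]
  ring

theorem part_le_g {n k p : ℕ} (hp : p.Prime) (hn : k ≤ n) (hn0 : 0 < n) (hE : n < 2 ^ 101) :
    part n k p ≤ g (n.choose k) p := by
  have h1 : part n k p ≤ n := part_le hn0
  have h2 : (n.choose k).factorization p ≤ 100 := by
    by_contra hcon
    push Not at hcon
    have h3 : p ^ 101 ≤ part n k p := Nat.pow_le_pow_right hp.pos hcon
    have h4 : 2 ^ 101 ≤ p ^ 101 := Nat.pow_le_pow_left hp.two_le _
    omega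
  refine Nat.le_of_dvd (Nat.gcd_pos_of_pos_left _ (Nat.choose_pos hn)) ?_
  exact Nat.dvd_gcd (Nat.ordProj_dvd _ _) (pow_dvd_pow p h2)

theorem not_mem {n k S : ℕ} (hn : k ≤ n) (hS : smallPart n k ≤ S)
    (ht : S ^ 2 ≤ n.choose k) : ¬ largePart n k < smallPart n k := by
  intro h
  have h5 := small_mul_large (k := k) hn
  have h6 : smallPart n k * smallPart n k ≤ smallPart n k * largePart n k := by
    rw [h5, ← sq]
    exact (Nat.pow_le_pow_left hS 2).trans ht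
  have h7 : 0 < smallPart n k := by omega
  have := Nat.le_of_mul_le_mul_left h6 h7
  omega

theorem not_mem3 {n : ℕ} (hn : 3 ≤ n) (hN : n < 2 ^ 101) (ht : T3 n = true) :
    ¬ largePart n 3 < smallPart n 3 := by
  unfold T3 at ht
  rw [decide_eq_true_eq, C3_eq] at ht
  refine not_mem hn ?_ ht
  rw [small_three]
  exact Nat.mul_le_mul (part_le_g Nat.prime_two hn (by omega) hN)
    (part_le_g Nat.prime_three hn (by omega) hN)

theorem not_mem5 {n : ℕ} (hn : 5 ≤ n) (hN : n < 2 ^ 101) (ht : T5 n = true) :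
    ¬ largePart n 5 < smallPart n 5 := by
  unfold T5 at ht
  rw [decide_eq_true_eq, C5_eq] at ht
  refine not_mem hn ?_ ht
  rw [small_five]
  exact Nat.mul_le_mul (Nat.mul_le_mul (part_le_g Nat.prime_two hn (by omega) hN)
    (part_le_g Nat.prime_three hn (by omega) hN)) (part_le_g Nat.prime_five hn (by omega) hN)

theorem not_mem7 {n : ℕ} (hn : 7 ≤ n) (hN : n < 2 ^ 101) (ht : T7 n = true) :
    ¬ largePart n 7 < smallPart n 7 := by
  unfold T7 at ht
  rw [decide_eq_true_eq, C7_eq] at ht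
  refine not_mem hn ?_ ht
  rw [small_seven]
  exact Nat.mul_le_mul (Nat.mul_le_mul (Nat.mul_le_mul (part_le_g Nat.prime_two hn (by omega) hN)
    (part_le_g Nat.prime_three hn (by omega) hN)) (part_le_g Nat.prime_five hn (by omega) hN))
    (part_le_g (by norm_num) hn (by omega) hN)

theorem box3 : ∀ a < 40, ∀ b < 26, ∀ i < 3, 2 ^ a * 3 ^ b + i < 6 ∨
    (2 ^ a * 3 ^ b + i) ∈ [8, 9, 10, 18, 82, 162] ∨ T3 (2 ^ a * 3 ^ b + i) = true := by
  decide +kernel

theorem box5 : ∀ a < 40, ∀ b < 26, ∀ i < 5, 2 ^ a * 3 ^ b + i < 10 ∨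
    (2 ^ a * 3 ^ b + i) ∈ [10, 12, 28] ∨ T5 (2 ^ a * 3 ^ b + i) = true := by
  decide +kernel

theorem box7 : ∀ a < 40, ∀ b < 26, ∀ i < 7, 2 ^ a * 3 ^ b + i < 14 ∨
    (2 ^ a * 3 ^ b + i) ∈ [21, 30, 54] ∨ T7 (2 ^ a * 3 ^ b + i) = true := by
  decide +kernel

theorem size {n i a b : ℕ} (ha : a < 40) (hb : b < 26) (hi : i < 7)
    (hn : n = 2 ^ a * 3 ^ b + i) : n < 2 ^ 101 := by
  have h1 : 2 ^ a ≤ 2 ^ 39 := Nat.pow_le_pow_right (by norm_num) (by omega)
  have h2 : 3 ^ b ≤ 3 ^ 25 := Nat.pow_le_pow_right (by norm_num) (by omega)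
  have h3 : 2 ^ a * 3 ^ b ≤ 2 ^ 39 * 3 ^ 25 := Nat.mul_le_mul h1 h2
  have h4 : 2 ^ 39 * 3 ^ 25 + 7 < 2 ^ 101 := by norm_num
  omega

theorem smooth3 {n i a b : ℕ} (hn : 6 ≤ n) (hi : i < 3) (hab : n = 2 ^ a * 3 ^ b + i)
    (h : largePart n 3 < smallPart n 3) : n ∈ [8, 9, 10, 18, 82, 162] := by
  obtain ⟨ha, hb⟩ := box (k := 3) (by norm_num) (by omega) hi (Or.inl (by norm_num)) hab h
  rcases box3 a ha b hb i hi with h1 | h1 | h1
  · omega
  · rwa [← hab] at h1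
  · rw [← hab] at h1
    exact absurd h (not_mem3 (by omega) (size ha hb (by omega) hab) h1)

theorem smooth5 {n i a b : ℕ} (hn : 10 ≤ n) (hi : i < 5) (hab : n = 2 ^ a * 3 ^ b + i)
    (h : largePart n 5 < smallPart n 5) : n ∈ [10, 12, 28] := by
  obtain ⟨ha, hb⟩ := box (k := 5) (by norm_num) (by omega) hi (Or.inl (by norm_num)) hab h
  rcases box5 a ha b hb i hi with h1 | h1 | h1
  · omega
  · rwa [← hab] at h1
  · rw [← hab] at h1
    exact absurd h (not_mem5 (by omega) (size ha hb (by omega) hab) h1)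

theorem smooth7 {n i a b : ℕ} (hn : 14 ≤ n) (hi : i < 7) (h1 : a = 0 → i ≤ 4)
    (h2 : b = 0 → i ≤ 5) (hab : n = 2 ^ a * 3 ^ b + i)
    (h : largePart n 7 < smallPart n 7) : n ∈ [21, 30, 54] := by
  obtain ⟨ha, hb⟩ := box_seven hn hi h1 h2 hab h
  rcases box7 a ha b hb i hi with h1 | h1 | h1
  · omega
  · rwa [← hab] at h1
  · rw [← hab] at h1
    exact absurd h (not_mem7 (by omega) (size ha hb (by omega) hab) h1)

end Pool.Agent.Lib.MP_331cea_nt
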